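import Mathlib

/-! Elementary symmetric sums, Bonferroni's inequalities and the Poisson distribution. -/

set_option autoImplicit false

namespace Pool.Agent.T9h23.PS
open Finset

/-- elementary symmetric sums -/
noncomputable def ES (v : ℕ → ℝ) (A : Finset ℕ) (j : ℕ) : ℝ := ∑ S ∈ A.powersetCard j, ∏ t ∈ S, v t

lemma ES_zero (v : ℕ → ℝ) (A : Finset ℕ) : ES v A 0 = 1 := by
  unfold ES
  rw [powersetCard_zero, sum_singleton, prod_empty]

lemma ES_insert (v : ℕ → ℝ) {A : Finset ℕ} {a : ℕ} (ha : a ∉ A) (j : ℕ) :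
    ES v (insert a A) (j + 1) = ES v A (j + 1) + v a * ES v A j := by
  unfold ES
  rw [powersetCard_succ_insert ha, sum_union]
  · congr 1
    rw [sum_image]
    · rw [mul_sum]
      refine sum_congr rfl fun S hS => ?_
      rw [mem_powersetCard] at hS
      rw [prod_insert (fun h => ha (hS.1 h))]
    · intro S hS S' hS' h
      rw [mem_coe, mem_powersetCard] at hS hS'
      have h1 : (insert a S).erase a = (insert a S').erase a := by rw [h]
      rwa [erase_insert (fun h => ha (hS.1 h)), erase_insert (fun h => ha (hS'.1 h))] at h1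
  · rw [disjoint_left]
    intro S hS hS'
    rw [mem_powersetCard] at hS
    rw [mem_image] at hS'
    obtain ⟨S', _, rfl⟩ := hS'
    exact ha (hS.1 (mem_insert_self _ _))

lemma ES_nonneg {v : ℕ → ℝ} (hv : ∀ t, 0 ≤ v t) (A : Finset ℕ) (j : ℕ) : 0 ≤ ES v A j :=
  sum_nonneg fun _ _ => prod_nonneg fun _ _ => hv _

lemma ES_succ (v : ℕ → ℝ) (A : Finset ℕ) : ∀ j : ℕ, ((j : ℝ) + 1) * ES v A (j + 1) = ∑ t ∈ A, v t * ES v (A.erase t) j := by
  induction A using Finset.induction_on with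
  | empty =>
    intro j
    unfold ES
    rw [powersetCard_eq_empty.2 (by simp)]
    simp
  | insert a A ha ih =>
    intro j
    rw [ES_insert v ha, sum_insert ha, erase_insert ha]
    have h1 : ∀ t ∈ A, (insert a A).erase t = insert a (A.erase t) := by
      intro t ht
      rw [erase_insert_of_ne]
      rintro rfl
      exact ha ht
    rcases j with _ | j
    · have e1 : ∑ t ∈ A, v t * ES v ((insert a A).erase t) 0 = ∑ t ∈ A, v t * ES v (A.erase t) 0 :=
        sum_congr rfl fun t _ => by rw [ES_zero, ES_zero]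
      rw [e1, ← ih 0, ES_zero]
      push_cast
      ring
    · have e1 : ∑ t ∈ A, v t * ES v ((insert a A).erase t) (j + 1) =
          ∑ t ∈ A, v t * ES v (A.erase t) (j + 1) + v a * ∑ t ∈ A, v t * ES v (A.erase t) j := by
        rw [mul_sum, ← sum_add_distrib]
        refine sum_congr rfl fun t ht => ?_
        rw [h1 t ht, ES_insert v (fun h => ha (mem_of_mem_erase h))]
        ring
      rw [e1, ← ih (j + 1), ← ih j]
      push_cast
      ring

lemma ES_erase_le {v : ℕ → ℝ} (hv : ∀ t, 0 ≤ v t) {A : Finset ℕ} {t : ℕ} (_ht : t ∈ A) (j : ℕ) :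
    ES v (A.erase t) j ≤ ES v A j := by
  unfold ES
  apply sum_le_sum_of_subset_of_nonneg (powersetCard_mono (erase_subset _ _))
  intro _ _ _
  exact prod_nonneg fun _ _ => hv _

lemma ES_erase_ge {v : ℕ → ℝ} (hv : ∀ t, 0 ≤ v t) {b : ℝ} (hb : ∀ t, v t ≤ b) {A : Finset ℕ} {t : ℕ} (ht : t ∈ A) (j : ℕ) :
    ES v A (j + 1) - b * ES v A j ≤ ES v (A.erase t) (j + 1) := by
  have h1 := ES_insert v (notMem_erase t A) j
  rw [insert_erase ht] at h1
  have h2 : v t * ES v (A.erase t) j ≤ b * ES v A j :=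
    mul_le_mul (hb t) (ES_erase_le hv ht j) (ES_nonneg hv _ _) ((hv t).trans (hb t))
  linarith

lemma ES_upper {v : ℕ → ℝ} (hv : ∀ t, 0 ≤ v t) (A : Finset ℕ) : ∀ j : ℕ, (j.factorial : ℝ) * ES v A j ≤ (∑ t ∈ A, v t) ^ j := by
  intro j
  induction j with
  | zero => rw [ES_zero]; simp
  | succ j ih =>
    have h1 := ES_succ v A j
    have h2 : ∑ t ∈ A, v t * ES v (A.erase t) j ≤ (∑ t ∈ A, v t) * ES v A j := by
      rw [sum_mul]
      exact sum_le_sum fun t ht => mul_le_mul_of_nonneg_left (ES_erase_le hv ht j) (hv t)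
    have hS : 0 ≤ ∑ t ∈ A, v t := sum_nonneg fun t _ => hv t
    rw [Nat.factorial_succ]
    push_cast
    calc ((j : ℝ) + 1) * j.factorial * ES v A (j + 1) = j.factorial * (((j : ℝ) + 1) * ES v A (j + 1)) := by ring
      _ ≤ j.factorial * ((∑ t ∈ A, v t) * ES v A j) := by
          rw [h1]
          exact mul_le_mul_of_nonneg_left h2 (Nat.cast_nonneg _)
      _ = (∑ t ∈ A, v t) * (j.factorial * ES v A j) := by ring
      _ ≤ (∑ t ∈ A, v t) * (∑ t ∈ A, v t) ^ j := mul_le_mul_of_nonneg_left ih hS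
      _ = _ := by rw [pow_succ]; ring

lemma ES_lower {v : ℕ → ℝ} (hv : ∀ t, 0 ≤ v t) {b : ℝ} (hb : ∀ t, v t ≤ b) (A : Finset ℕ) :
    ∀ j : ℕ, (∑ t ∈ A, v t) ^ (j + 1) - ((j : ℝ) + 1) ^ 2 * b * (∑ t ∈ A, v t) ^ j ≤ ((j + 1).factorial : ℝ) * ES v A (j + 1) := by
  have hS : 0 ≤ ∑ t ∈ A, v t := sum_nonneg fun t _ => hv t
  have hb0 : 0 ≤ b := (hv 0).trans (hb 0)
  intro j
  induction j with
  | zero =>
    have h1 := ES_succ v A 0
    simp only [ES_zero, mul_one] at h1
    simp only [Nat.cast_zero, zero_add] at h1 ⊢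
    have h2 : ES v A 1 = ∑ t ∈ A, v t := by linarith
    rw [h2]
    simp
    linarith
  | succ j ih =>
    have h1 := ES_succ v A (j + 1)
    have h2 : (∑ t ∈ A, v t) * (ES v A (j + 1) - b * ES v A j) ≤ ∑ t ∈ A, v t * ES v (A.erase t) (j + 1) := by
      rw [sum_mul]
      exact sum_le_sum fun t ht => mul_le_mul_of_nonneg_left (ES_erase_ge hv hb ht j) (hv t)
    have h3 := ES_upper hv A j
    obtain ⟨S, hSd⟩ : ∃ S, S = ∑ t ∈ A, v t := ⟨_, rfl⟩
    rw [← hSd] at h2 h3 ih hS ⊢
    have e1 : (((j + 1 + 1).factorial : ℕ) : ℝ) = ((j : ℝ) + 1 + 1) * ((j + 1).factorial : ℕ) := by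
      rw [Nat.factorial_succ (j + 1)]
      push_cast
      ring
    have e2 : (((j + 1).factorial : ℕ) : ℝ) = ((j : ℝ) + 1) * (j.factorial : ℕ) := by
      rw [Nat.factorial_succ j]
      push_cast
      ring
    push_cast at h1
    have hSb : 0 ≤ S * b := mul_nonneg hS hb0
    have hj1 : (0 : ℝ) ≤ (j : ℝ) + 1 := by positivity
    calc S ^ (j + 1 + 1) - (((j + 1 : ℕ) : ℝ) + 1) ^ 2 * b * S ^ (j + 1)
        ≤ S * (S ^ (j + 1) - ((j : ℝ) + 1) ^ 2 * b * S ^ j) - (S * b) * (((j : ℝ) + 1) * S ^ j) := by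
          have h5 : 0 ≤ b * S ^ (j + 1) := mul_nonneg hb0 (pow_nonneg hS _)
          have h6 : S * (S ^ (j + 1) - ((j : ℝ) + 1) ^ 2 * b * S ^ j) - (S * b) * (((j : ℝ) + 1) * S ^ j) =
              S ^ (j + 1 + 1) - (((j : ℝ) + 1) ^ 2 + ((j : ℝ) + 1)) * (b * S ^ (j + 1)) := by
            rw [pow_succ S (j + 1), pow_succ S j]
            ring
          rw [h6]
          have h7 : (((j : ℝ) + 1) ^ 2 + ((j : ℝ) + 1)) * (b * S ^ (j + 1)) ≤ ((((j + 1 : ℕ) : ℝ)) + 1) ^ 2 * (b * S ^ (j + 1)) := by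
            apply mul_le_mul_of_nonneg_right _ h5
            push_cast
            have : (0 : ℝ) ≤ j := Nat.cast_nonneg j
            nlinarith
          linarith
      _ ≤ S * (((j + 1).factorial : ℕ) * ES v A (j + 1)) - (S * b) * (((j : ℝ) + 1) * ((j.factorial : ℕ) * ES v A j)) := by
          have h5 := mul_le_mul_of_nonneg_left ih hS
          have h6 := mul_le_mul_of_nonneg_left (mul_le_mul_of_nonneg_left h3 hj1) hSb
          linarith
      _ = (((j + 1).factorial : ℕ) : ℝ) * (S * (ES v A (j + 1) - b * ES v A j)) := by rw [e2]; ring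
      _ ≤ (((j + 1).factorial : ℕ) : ℝ) * (∑ t ∈ A, v t * ES v (A.erase t) (j + 1)) :=
          mul_le_mul_of_nonneg_left h2 (Nat.cast_nonneg _)
      _ = _ := by rw [← h1, e1]; ring

lemma ES_mono {v w : ℕ → ℝ} (hv : ∀ t, 0 ≤ v t) {A : Finset ℕ} (h : ∀ t ∈ A, v t ≤ w t) (j : ℕ) : ES v A j ≤ ES w A j := by
  unfold ES
  apply sum_le_sum
  intro S hS
  rw [mem_powersetCard] at hS
  exact prod_le_prod (fun t _ => hv t) fun t ht => h t (hS.1 ht)

lemma ES_const_mul (c : ℝ) (v : ℕ → ℝ) (A : Finset ℕ) (j : ℕ) : ES (fun t => c * v t) A j = c ^ j * ES v A j := by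
  unfold ES
  rw [mul_sum]
  refine sum_congr rfl fun S hS => ?_
  rw [mem_powersetCard] at hS
  rw [prod_mul_distrib, prod_const, hS.2]

lemma ES_ind (p : ℕ → Prop) [DecidablePred p] (A : Finset ℕ) (j : ℕ) :
    ES (fun t => if p t then 1 else 0) A j = (((A.filter p).card.choose j : ℕ) : ℝ) := by
  unfold ES
  have h1 : ∀ S ∈ A.powersetCard j, ∏ t ∈ S, (if p t then (1 : ℝ) else 0) = if S ⊆ A.filter p then 1 else 0 := by
    intro S hS
    rw [mem_powersetCard] at hS
    split_ifs with h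
    · exact prod_eq_one fun t ht => by rw [if_pos (mem_filter.1 (h ht)).2]
    · have : ∃ t ∈ S, ¬ p t := by
        by_contra hcon
        push Not at hcon
        exact h fun t ht => mem_filter.2 ⟨hS.1 ht, hcon t ht⟩
      obtain ⟨t, ht, hp⟩ := this
      exact prod_eq_zero ht (by rw [if_neg hp])
  rw [sum_congr rfl h1, sum_boole, ← card_powersetCard]
  congr 2
  ext S
  rw [mem_filter, mem_powersetCard, mem_powersetCard]
  constructor
  · rintro ⟨⟨_, h2⟩, h3⟩; exact ⟨h3, h2⟩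
  · rintro ⟨h3, h2⟩; exact ⟨⟨h3.trans (filter_subset _ _), h2⟩, h3⟩

/-- alternating sums of binomial coefficients -/
lemma alt_choose (N m k : ℕ) (h : m < N) : ∑ i ∈ range k, (-1 : ℤ) ^ i * ((N - m).choose i : ℤ) =
    if k = 0 then 0 else (-1) ^ (k - 1) * ((N - m - 1).choose (k - 1) : ℤ) := by
  obtain ⟨M, hM⟩ : ∃ M, N - m = M + 1 := ⟨N - m - 1, by omega⟩
  rw [hM]
  simp only [Nat.add_sub_cancel]
  induction k with
  | zero => simp
  | succ k ih =>
    rw [sum_range_succ, ih]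
    rcases k with _ | k
    · simp
    · simp only [Nat.add_eq_zero_iff, one_ne_zero, and_false, if_false, Nat.add_sub_cancel]
      rw [Nat.choose_succ_succ M k]
      push_cast
      ring

/-- Bonferroni's inequality -/
lemma bonf (N m d : ℕ) (hmd : m ≤ d) :
    |((if N = m then 1 else 0 : ℤ) : ℝ) - ∑ j ∈ Ico m d, (-1 : ℝ) ^ (j - m) * (j.choose m : ℝ) * (N.choose j : ℝ)| ≤
      (d.choose m : ℝ) * (N.choose d : ℝ) := by
  have e1 : ∑ j ∈ Ico m d, (-1 : ℝ) ^ (j - m) * (j.choose m : ℝ) * (N.choose j : ℝ) =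
      ((∑ i ∈ range (d - m), (-1 : ℤ) ^ i * ((N.choose m * (N - m).choose i : ℕ) : ℤ) : ℤ) : ℝ) := by
    rw [sum_Ico_eq_sum_range]
    push_cast
    refine sum_congr rfl fun i _ => ?_
    rw [Nat.add_sub_cancel_left]
    have h1 : N.choose (m + i) * (m + i).choose m = N.choose m * (N - m).choose i := by
      rw [Nat.choose_mul (by omega : m ≤ m + i)]
      congr 2
      omega
    have h2 : ((N.choose (m + i) : ℕ) : ℝ) * ((m + i).choose m : ℕ) = (N.choose m : ℕ) * ((N - m).choose i : ℕ) := by exact_mod_cast h1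
    calc (-1 : ℝ) ^ i * ((m + i).choose m : ℝ) * (N.choose (m + i) : ℝ) = (-1 : ℝ) ^ i * (((N.choose (m + i) : ℕ) : ℝ) * ((m + i).choose m : ℕ)) := by ring
      _ = _ := by rw [h2]
  rw [e1]
  have e2 : ((d.choose m : ℕ) : ℝ) * ((N.choose d : ℕ) : ℝ) = ((N.choose m * (N - m).choose (d - m) : ℕ) : ℝ) := by
    rw [← Nat.choose_mul hmd]
    push_cast
    ring
  rw [e2]
  have key : |(if N = m then 1 else 0 : ℤ) - ∑ i ∈ range (d - m), (-1 : ℤ) ^ i * ((N.choose m * (N - m).choose i : ℕ) : ℤ)| ≤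
      ((N.choose m * (N - m).choose (d - m) : ℕ) : ℤ) := by
    rcases lt_trichotomy N m with h | h | h
    · rw [if_neg (by omega), Nat.choose_eq_zero_of_lt h]
      simp
    · subst h
      rw [if_pos rfl, Nat.choose_self, Nat.sub_self]
      rcases Nat.eq_zero_or_pos (d - N) with h0 | h0
      · rw [h0]
        simp
      · have : ∑ i ∈ range (d - N), (-1 : ℤ) ^ i * ((1 * Nat.choose 0 i : ℕ) : ℤ) = 1 := by
          rw [sum_eq_single 0]
          · simp
          · intro i _ hi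
            rw [Nat.choose_eq_zero_of_lt (by omega)]
            simp
          · intro h1
            exact absurd (mem_range.2 h0) h1
        rw [this, Nat.choose_eq_zero_of_lt h0]
        simp
    · rw [if_neg (by omega)]
      have h2 : ∑ i ∈ range (d - m), (-1 : ℤ) ^ i * ((N.choose m * (N - m).choose i : ℕ) : ℤ) =
          (N.choose m : ℤ) * ∑ i ∈ range (d - m), (-1 : ℤ) ^ i * ((N - m).choose i : ℤ) := by
        rw [mul_sum]
        refine sum_congr rfl fun i _ => ?_
        push_cast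
        ring
      rw [h2, alt_choose N m (d - m) h]
      split_ifs with h3
      · rw [h3]
        simp
      · rw [zero_sub, abs_neg, abs_mul, abs_mul, abs_pow, abs_neg, abs_one, one_pow, one_mul]
        have h4 : (N - m - 1).choose (d - m - 1) ≤ (N - m).choose (d - m) := by
          obtain ⟨M, hM⟩ : ∃ M, N - m = M + 1 := ⟨N - m - 1, by omega⟩
          obtain ⟨k, hk⟩ : ∃ k, d - m = k + 1 := ⟨d - m - 1, by omega⟩
          rw [hM, hk]
          simp only [Nat.add_sub_cancel]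
          rw [Nat.choose_succ_succ]
          omega
        rw [abs_of_nonneg (by positivity), abs_of_nonneg (by positivity)]
        push_cast
        have h5 : ((N - m - 1).choose (d - m - 1) : ℤ) ≤ ((N - m).choose (d - m) : ℤ) := by exact_mod_cast h4
        exact mul_le_mul_of_nonneg_left h5 (by positivity)
  exact_mod_cast key

/-- the remainder of the exponential series at a negative number -/
lemma exp_tail (k : ℕ) : ∀ μ : ℝ, 0 ≤ μ → 0 ≤ (-1) ^ k * (Real.exp (-μ) - ∑ i ∈ range k, (-μ) ^ i / (i.factorial : ℝ)) := by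
  induction k with
  | zero =>
    intro μ _
    simp [(Real.exp_pos _).le]
  | succ k ih =>
    intro μ hμ
    obtain ⟨g, hg⟩ : ∃ g : ℝ → ℝ, g = fun μ => (-1 : ℝ) ^ (k + 1) * (Real.exp (-μ) - ∑ i ∈ range (k + 1), (-μ) ^ i / (i.factorial : ℝ)) := ⟨_, rfl⟩
    have hd : ∀ x : ℝ, HasDerivAt g ((-1) ^ k * (Real.exp (-x) - ∑ i ∈ range k, (-x) ^ i / (i.factorial : ℝ))) x := by
      intro x
      rw [hg]
      have h1 : HasDerivAt (fun x : ℝ => Real.exp (-x)) (-Real.exp (-x)) x := by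
        have := (hasDerivAt_neg x).exp
        simpa using this
      have h2 : HasDerivAt (fun x : ℝ => ∑ i ∈ range (k + 1), (-x) ^ i / (i.factorial : ℝ)) (-∑ i ∈ range k, (-x) ^ i / (i.factorial : ℝ)) x := by
        have h3 : ∀ i ∈ range (k + 1), HasDerivAt (fun x : ℝ => (-x) ^ i / (i.factorial : ℝ)) (-((i : ℝ) * (-x) ^ (i - 1) / (i.factorial : ℝ))) x := by
          intro i _
          have h4 := ((hasDerivAt_neg x).pow i).div_const (i.factorial : ℝ)
          refine h4.congr_deriv ?_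
          ring
        have h4 := HasDerivAt.fun_sum h3
        refine h4.congr_deriv ?_
        rw [sum_neg_distrib, sum_range_succ']
        simp only [Nat.cast_zero, zero_mul, zero_div, add_zero]
        congr 1
        refine sum_congr rfl fun i _ => ?_
        rw [Nat.add_sub_cancel, Nat.factorial_succ]
        push_cast
        have h5 : ((i : ℝ) + 1) ≠ 0 := by positivity
        have h6 : (i.factorial : ℝ) ≠ 0 := by positivity
        field_simp
      have h5 := (h1.sub h2).const_mul ((-1 : ℝ) ^ (k + 1))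
      refine h5.congr_deriv ?_
      rw [pow_succ]
      ring
    have hmono : MonotoneOn g (Set.Ici 0) := by
      apply monotoneOn_of_deriv_nonneg (convex_Ici 0)
      · exact fun x _ => (hd x).continuousAt.continuousWithinAt
      · exact fun x _ => (hd x).differentiableAt.differentiableWithinAt
      · intro x hx
        rw [interior_Ici] at hx
        rw [(hd x).deriv]
        exact ih x (le_of_lt hx)
    have h0 : g 0 = 0 := by
      rw [hg]
      simp only [neg_zero, Real.exp_zero]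
      rw [sum_range_succ']
      simp
    have h1 := hmono (Set.mem_Ici.2 le_rfl) (Set.mem_Ici.2 hμ) hμ
    rw [h0, hg] at h1
    exact h1

lemma exp_tail_abs (k : ℕ) (μ : ℝ) (hμ : 0 ≤ μ) :
    |Real.exp (-μ) - ∑ i ∈ range k, (-μ) ^ i / (i.factorial : ℝ)| ≤ μ ^ k / (k.factorial : ℝ) := by
  have h1 := exp_tail k μ hμ
  have h2 := exp_tail (k + 1) μ hμ
  obtain ⟨R, hR⟩ : ∃ R, R = Real.exp (-μ) - ∑ i ∈ range k, (-μ) ^ i / (i.factorial : ℝ) := ⟨_, rfl⟩
  have h3 : Real.exp (-μ) - ∑ i ∈ range (k + 1), (-μ) ^ i / (i.factorial : ℝ) = R - (-μ) ^ k / (k.factorial : ℝ) := by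
    rw [sum_range_succ, hR]
    ring
  rw [h3] at h2
  rw [← hR] at h1 ⊢
  have h4 : (-1 : ℝ) ^ k * (-μ) ^ k = μ ^ k := by rw [← mul_pow]; ring_nf
  have h5 : (-1 : ℝ) ^ (k + 1) * (R - (-μ) ^ k / (k.factorial : ℝ)) = μ ^ k / (k.factorial : ℝ) - (-1) ^ k * R := by
    rw [pow_succ, ← h4]
    ring
  rw [h5] at h2
  rcases neg_one_pow_eq_or ℝ k with h | h
  · rw [h, one_mul] at h1 h2
    rw [abs_le]
    constructor <;> linarith
  · rw [h] at h1 h2
    rw [abs_le]
    constructor <;> linarith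

/-- Bonferroni's inequality for the Poisson distribution -/
lemma poisson_bonf (m d : ℕ) (hmd : m ≤ d) (μ : ℝ) (hμ : 0 ≤ μ) :
    |Real.exp (-μ) * μ ^ m / (m.factorial : ℝ) - ∑ j ∈ Ico m d, (-1 : ℝ) ^ (j - m) * (j.choose m : ℝ) * (μ ^ j / (j.factorial : ℝ))| ≤
      (d.choose m : ℝ) * (μ ^ d / (d.factorial : ℝ)) := by
  have hfac : ∀ i : ℕ, (((m + i).choose m : ℕ) : ℝ) * (μ ^ (m + i) / ((m + i).factorial : ℝ)) =
      (μ ^ m / (m.factorial : ℝ)) * (μ ^ i / (i.factorial : ℝ)) := by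
    intro i
    have h1 : ((m + i).choose m : ℝ) * (m.factorial : ℝ) * (i.factorial : ℝ) = ((m + i).factorial : ℝ) := by
      have h0 := Nat.add_choose_mul_factorial_mul_factorial i m
      rw [add_comm i m] at h0
      have h0' : ((m + i).choose m : ℝ) * (i.factorial : ℝ) * (m.factorial : ℝ) = ((m + i).factorial : ℝ) := by exact_mod_cast h0
      rw [← h0']
      ring
    have h2 : (m.factorial : ℝ) ≠ 0 := by positivity
    have h3 : (i.factorial : ℝ) ≠ 0 := by positivity
    have h4 : ((m + i).factorial : ℝ) ≠ 0 := by positivity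
    rw [mul_div_assoc', div_mul_div_comm, div_eq_div_iff h4 (mul_ne_zero h2 h3), ← h1, pow_add]
    ring
  have e1 : ∑ j ∈ Ico m d, (-1 : ℝ) ^ (j - m) * (j.choose m : ℝ) * (μ ^ j / (j.factorial : ℝ)) =
      (μ ^ m / (m.factorial : ℝ)) * ∑ i ∈ range (d - m), (-μ) ^ i / (i.factorial : ℝ) := by
    rw [sum_Ico_eq_sum_range, mul_sum]
    refine sum_congr rfl fun i _ => ?_
    rw [Nat.add_sub_cancel_left, mul_assoc, hfac i, neg_pow μ i]
    ring
  have e2 : ((d.choose m : ℕ) : ℝ) * (μ ^ d / (d.factorial : ℝ)) = (μ ^ m / (m.factorial : ℝ)) * (μ ^ (d - m) / ((d - m).factorial : ℝ)) := by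
    have := hfac (d - m)
    rwa [Nat.add_sub_cancel' hmd] at this
  have e3 : Real.exp (-μ) * μ ^ m / (m.factorial : ℝ) = (μ ^ m / (m.factorial : ℝ)) * Real.exp (-μ) := by ring
  have hc : 0 ≤ μ ^ m / (m.factorial : ℝ) := by positivity
  rw [e1, e2, e3, ← mul_sub, abs_mul, abs_of_nonneg hc]
  exact mul_le_mul_of_nonneg_left (exp_tail_abs (d - m) μ hμ) hc

end Pool.Agent.T9h23.PS
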