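import Mathlib
import Pool.Agent.T9h23.BH.A6
import Pool.Agent.T9h23.PS.P1

/-! Tuples in short windows: the second moment. -/

set_option autoImplicit false

namespace Pool.Agent.T9h23.PS
open Finset Polynomial
open Pool.Agent.H373R2.T7
open Pool.Agent.T9h23.Cor
open Pool.Agent.T9h23.BH

/-- the `j`-subsets of the windows of length `W` -/
def WI (j W x : ℕ) : Finset (Σ _ : ℕ, Finset ℕ) := (Icc 1 x).sigma (fun n => (Ioc n (n + W)).powersetCard j)

/-- the points -/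
def WT (τ : Σ _ : ℕ, Finset ℕ) (_ : Fin 1) : Finset ℤ := τ.2.image (fun t : ℕ => (t : ℤ))

lemma card_WT (τ : Σ _ : ℕ, Finset ℕ) (i : Fin 1) : (WT τ i).card = τ.2.card := by
  unfold WT
  rw [card_image_of_injective]
  exact Nat.cast_injective

/-- the dimension vector -/
def D1 (d : ℕ) : Fin 1 → ℕ := fun _ => d

lemma MM_WT {d : ℕ} (w : ℤ → ℝ) (P : ℤ[X]) (f : (j : Fin 1) → (Fin (D1 d j + 1) → ℤ)) (τ : Σ _ : ℕ, Finset ℕ) :
    MM w (fun _ t => P.eval t) f (WT τ) = ∏ t ∈ τ.2, w ((hpol P (f 0)).eval (t : ℤ)) := by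
  unfold MM WT
  rw [Fin.prod_univ_one, prod_image]
  · refine prod_congr rfl fun t _ => ?_
    rw [hpol_eval]
  · intro a _ b _ h
    have h' : (a : ℤ) = (b : ℤ) := h
    exact_mod_cast h'

lemma sum_WI {d : ℕ} (w : ℤ → ℝ) (P : ℤ[X]) (f : (j : Fin 1) → (Fin (D1 d j + 1) → ℤ)) (j W x : ℕ) :
    ∑ τ ∈ WI j W x, MM w (fun _ t => P.eval t) f (WT τ) =
      ∑ n ∈ Icc 1 x, ES (fun t => w ((hpol P (f 0)).eval (t : ℤ))) (Ioc n (n + W)) j := by
  unfold WI
  rw [sum_sigma]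
  refine sum_congr rfl fun n _ => ?_
  unfold ES
  refine sum_congr rfl fun S _ => ?_
  rw [MM_WT]

lemma card_super (A U : Finset ℕ) (j : ℕ) : ((A.powersetCard j).filter (fun S => U ⊆ S)).card ≤ A.card ^ (j - U.card) := by
  have h1 : ((A.powersetCard j).filter (fun S => U ⊆ S)).card ≤ (A.powersetCard (j - U.card)).card := by
    apply card_le_card_of_injOn (fun S => S \ U)
    · intro S hS
      rw [mem_coe, mem_filter, mem_powersetCard] at hS
      rw [mem_coe, mem_powersetCard]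
      exact ⟨sdiff_subset.trans hS.1.1, by rw [card_sdiff_of_subset hS.2, hS.1.2]⟩
    · intro S hS S' hS' h
      rw [mem_coe, mem_filter] at hS hS'
      have h' : S \ U = S' \ U := h
      rw [← sdiff_union_of_subset hS.2, ← sdiff_union_of_subset hS'.2, h']
  refine h1.trans ?_
  rw [card_powersetCard]
  exact Nat.choose_le_pow _ _

lemma card_WI (j W x : ℕ) : (WI j W x).card ≤ x * W ^ j := by
  unfold WI
  rw [card_sigma]
  calc ∑ n ∈ Icc 1 x, ((Ioc n (n + W)).powersetCard j).card ≤ ∑ _n ∈ Icc 1 x, W ^ j := by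
        apply sum_le_sum
        intro n _
        rw [card_powersetCard, Nat.card_Ioc, Nat.add_sub_cancel_left]
        exact Nat.choose_le_pow _ _
    _ = x * W ^ j := by rw [sum_const, smul_eq_mul, Nat.card_Icc, Nat.add_sub_cancel]

open Classical in
lemma count_super (j W x : ℕ) (U : Finset ℕ) (hU : U.Nonempty) (_hUj : U.card ≤ j) :
    ((WI j W x).filter (fun τ => U ⊆ τ.2)).card ≤ W ^ (j - U.card + 1) := by
  obtain ⟨u, hu⟩ := hU
  have h1 : ((WI j W x).filter (fun τ => U ⊆ τ.2)).card ≤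
      ∑ n ∈ Icc 1 x, ((((Ioc n (n + W)).powersetCard j).filter (fun S => U ⊆ S)).card) := by
    have e1 : (WI j W x).filter (fun τ => U ⊆ τ.2) =
        (Icc 1 x).sigma (fun n => ((Ioc n (n + W)).powersetCard j).filter (fun S => U ⊆ S)) := by
      ext τ
      unfold WI
      rw [mem_filter, mem_sigma, mem_sigma, mem_filter]
      tauto
    rw [e1, card_sigma]
  have h2 : ∀ n ∈ Icc 1 x, (((Ioc n (n + W)).powersetCard j).filter (fun S => U ⊆ S)).card ≤
      if n < u ∧ u ≤ n + W then W ^ (j - U.card) else 0 := by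
    intro n _
    split_ifs with h
    · refine (card_super _ U j).trans (le_of_eq ?_)
      rw [Nat.card_Ioc, Nat.add_sub_cancel_left]
    · apply le_of_eq
      rw [card_eq_zero, filter_eq_empty_iff]
      intro S hS hUS
      rw [mem_powersetCard] at hS
      have := hS.1 (hUS hu)
      rw [mem_Ioc] at this
      exact h this
  refine h1.trans ((sum_le_sum h2).trans ?_)
  rw [← sum_filter, sum_const, smul_eq_mul]
  have h3 : ((Icc 1 x).filter (fun n => n < u ∧ u ≤ n + W)).card ≤ W := by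
    have hsub : (Icc 1 x).filter (fun n => n < u ∧ u ≤ n + W) ⊆ Ico (u - W) u := by
      intro n hn
      rw [mem_filter] at hn
      rw [mem_Ico]
      omega
    refine (card_le_card hsub).trans ?_
    rw [Nat.card_Ico]
    omega
  calc ((Icc 1 x).filter (fun n => n < u ∧ u ≤ n + W)).card * W ^ (j - U.card) ≤ W * W ^ (j - U.card) := Nat.mul_le_mul_right _ h3
    _ = W ^ (j - U.card + 1) := by rw [pow_succ]; ring

open Classical in
lemma pairs_WI (j W x : ℕ) (B M : ℝ) (hB : 1 ≤ B) (hBM : B ≤ M) (hWM : (W : ℝ) ≤ M) :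
    ∑ q ∈ (WI j W x ×ˢ WI j W x).filter (fun q => ∃ i, ¬ Disjoint (WT q.1 i) (WT q.2 i)),
      B ^ (∑ i, (WT q.1 i ∩ WT q.2 i).card) ≤ (x : ℝ) * W ^ j * (2 ^ j * M ^ (j + 1)) := by
  have hM1 : 1 ≤ M := hB.trans hBM
  have hW0 : (0 : ℝ) ≤ W := Nat.cast_nonneg W
  rw [sum_filter, sum_product]
  have hone : ∀ τ ∈ WI j W x, ∑ τ' ∈ WI j W x, (if ∃ i, ¬ Disjoint (WT τ i) (WT τ' i) then B ^ (∑ i, (WT τ i ∩ WT τ' i).card) else 0) ≤
      2 ^ j * M ^ (j + 1) := by
    intro τ hτ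
    have hτc : τ.2.card = j := by
      unfold WI at hτ
      rw [mem_sigma, mem_powersetCard] at hτ
      exact hτ.2.2
    have h1 : ∀ τ' ∈ WI j W x, (if ∃ i, ¬ Disjoint (WT τ i) (WT τ' i) then B ^ (∑ i, (WT τ i ∩ WT τ' i).card) else 0) ≤
        ∑ U ∈ τ.2.powerset.filter (fun U => U.Nonempty), (if U ⊆ τ'.2 then B ^ U.card else 0) := by
      intro τ' _
      have hnn : ∀ U ∈ τ.2.powerset.filter (fun U => U.Nonempty), (0 : ℝ) ≤ if U ⊆ τ'.2 then B ^ U.card else 0 := by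
        intro U _
        split_ifs
        · positivity
        · exact le_rfl
      split_ifs with h
      · obtain ⟨i, hi⟩ := h
        have hU : τ.2 ∩ τ'.2 ∈ τ.2.powerset.filter (fun U => U.Nonempty) := by
          rw [mem_filter, mem_powerset]
          refine ⟨inter_subset_left, ?_⟩
          rw [not_disjoint_iff] at hi
          obtain ⟨t, ht, ht'⟩ := hi
          unfold WT at ht ht'
          rw [mem_image] at ht ht'
          obtain ⟨a, ha, hat⟩ := ht
          obtain ⟨b, hb, hbt⟩ := ht'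
          have : a = b := by
            have : (a : ℤ) = (b : ℤ) := hat.trans hbt.symm
            exact_mod_cast this
          exact ⟨a, mem_inter.2 ⟨ha, this ▸ hb⟩⟩
        refine le_trans ?_ (single_le_sum hnn hU)
        rw [if_pos inter_subset_right]
        apply le_of_eq
        congr 1
        rw [Fin.sum_univ_one]
        unfold WT
        rw [← image_inter _ _ Nat.cast_injective, card_image_of_injective _ Nat.cast_injective]
      · exact sum_nonneg hnn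
    refine (sum_le_sum h1).trans ?_
    rw [sum_comm]
    calc ∑ U ∈ τ.2.powerset.filter (fun U => U.Nonempty), ∑ τ' ∈ WI j W x, (if U ⊆ τ'.2 then B ^ U.card else 0)
        ≤ ∑ _U ∈ τ.2.powerset.filter (fun U => U.Nonempty), M ^ (j + 1) := by
          apply sum_le_sum
          intro U hU
          rw [mem_filter, mem_powerset] at hU
          have hUj : U.card ≤ j := by rw [← hτc]; exact card_le_card hU.1
          rw [← sum_filter, sum_const, nsmul_eq_mul]
          have h2 : (((WI j W x).filter (fun τ' => U ⊆ τ'.2)).card : ℝ) ≤ (W : ℝ) ^ (j - U.card + 1) := by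
            exact_mod_cast count_super j W x U hU.2 hUj
          calc (((WI j W x).filter (fun τ' => U ⊆ τ'.2)).card : ℝ) * B ^ U.card ≤ M ^ (j - U.card + 1) * M ^ U.card := by
                apply mul_le_mul (h2.trans (pow_le_pow_left₀ hW0 hWM _)) (pow_le_pow_left₀ (by linarith) hBM _) (by positivity) (by positivity)
            _ = M ^ (j + 1) := by rw [← pow_add]; congr 1; omega
      _ = ((τ.2.powerset.filter (fun U => U.Nonempty)).card : ℝ) * M ^ (j + 1) := by rw [sum_const, nsmul_eq_mul]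
      _ ≤ 2 ^ j * M ^ (j + 1) := by
          apply mul_le_mul_of_nonneg_right _ (by positivity)
          have h3 : (τ.2.powerset.filter (fun U => U.Nonempty)).card ≤ 2 ^ j := by
            refine (card_filter_le _ _).trans ?_
            rw [card_powerset, hτc]
          exact_mod_cast h3
  refine (sum_le_sum hone).trans ?_
  rw [sum_const, nsmul_eq_mul]
  apply mul_le_mul_of_nonneg_right _ (by positivity)
  exact_mod_cast card_WI j W x

/-- the inner polynomials `{X}` -/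
noncomputable def GX : Fin 1 → Finset ℤ[X] := fun _ => {X}

lemma GX_ok {d D : ℕ} (hd : 1 ≤ d) (hD : 1 ≤ D) : GOK (D1 d) D GX := by
  constructor
  · intro j
    unfold GX D1
    rw [card_singleton]
    exact hd
  · intro j g hg
    unfold GX at hg
    rw [mem_singleton] at hg
    rw [hg, natDegree_X]
    exact ⟨le_rfl, hD⟩

lemma kk_GX : kk GX = 1 := by
  unfold kk GX
  simp

lemma TT_GX (n : ℕ) (j : Fin 1) : TT GX n j = {(n : ℤ)} := by
  unfold TT GX
  rw [image_singleton, eval_X]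

lemma qq_GX {d : ℕ} (P : ℤ[X]) (f : (j : Fin 1) → (Fin (D1 d j + 1) → ℤ)) : qq GX (fun _ => P) f = hpol P (f 0) := by
  unfold qq GX
  rw [Fin.prod_univ_one, prod_singleton, comp_X]

lemma GX_small {H A D : ℕ} {P : ℤ[X]} (hP : P.natDegree ≤ D) (hc : ∀ i, |(P.coeff i : ℝ)| ≤ H * Real.log H ^ A) (hL : 1 ≤ Real.log H) :
    Small H A D (fun _ : Fin 1 => P) GX := by
  refine ⟨fun _ => hP, fun _ => hc, fun j g hg i => ?_⟩
  unfold GX at hg
  rw [mem_singleton] at hg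
  rw [hg, coeff_X]
  split_ifs
  · simp only [Int.cast_one, abs_one]
    exact one_le_pow₀ hL
  · simp only [Int.cast_zero, abs_zero]
    positivity

/-- the second moment for the tuples in windows -/
theorem SMW (d D A B Λ : ℕ) (hd : 1 ≤ d) (hD : 1 ≤ D) (hΛ : 2 ≤ Λ) (e e' : ℝ) (he : 0 < e) (he' : 0 < e') :
    ∃ H0 : ℕ, ∀ H : ℕ, H0 ≤ H → ∀ y : ℕ, Real.log H ^ e ≤ y → (y : ℝ) ≤ Real.log H ^ B →
    ∀ P : ℤ[X], P.natDegree ≤ D → (∀ i, |(P.coeff i : ℝ)| ≤ H * Real.log H ^ A) →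
    ∀ j ≤ d, ∀ W x : ℕ, (W : ℝ) ≤ Λ * Real.log H → ((x + W : ℕ) : ℝ) ≤ Real.log H ^ B → ∀ w : ℤ → ℝ, Wt H B y w →
    ∑ f ∈ Om (D1 d) H, (∑ τ ∈ WI j W x, (MM w (fun _ t => P.eval t) f (WT τ) - MM (lz y) (fun _ t => P.eval t) f (WT τ))) ^ 2 ≤
      NN (D1 d) H * (Real.log H ^ e' * (((x : ℝ) * Real.log H ^ j) ^ 2 / y + x * Real.log H ^ (2 * j + 1))) := by
  classical
  obtain ⟨A', n0, h0⟩ := pts D A B
  obtain ⟨n1, h1⟩ := second 1 (D1 d) A' B (fun _ => hd) e (e' / 2) he (by positivity)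
  obtain ⟨n2, h2⟩ := ev_rpow ((Λ : ℝ) ^ (2 * d) + (Λ : ℝ) ^ d * (2 ^ d * (Λ : ℝ) ^ (d + 1))) (e' / 2) (by positivity)
  obtain ⟨n3, h3⟩ := ev_L' 2
  refine ⟨max (max n0 n1) (max n2 n3), fun H hH y hy1 hy2 P hP1 hP2 j hj W x hW hx w hw => ?_⟩
  have hn0 : n0 ≤ H := ((le_max_left _ _).trans (le_max_left _ _)).trans hH
  have hn1 : n1 ≤ H := ((le_max_right _ _).trans (le_max_left _ _)).trans hH
  have hn2 : n2 ≤ H := ((le_max_left _ _).trans (le_max_right _ _)).trans hH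
  have hn3 : n3 ≤ H := ((le_max_right _ _).trans (le_max_right _ _)).trans hH
  have hL := h3 H hn3
  have hL0 : 0 < Real.log H := by linarith
  have hL1 : 1 ≤ Real.log H := by linarith
  have a2 := h2 H hn2
  obtain ⟨T0, hT0, hT⟩ := h0 H hn0
  obtain ⟨hP, hpt⟩ := hT 1 (D1 d) (fun _ => P) GX (GX_ok hd hD) (GX_small hP1 hP2 hL1)
  have hmem : ∀ τ ∈ WI j W x, τ.2.card = j ∧ ∀ t ∈ τ.2, t ≤ x + W := by
    intro τ hτ
    unfold WI at hτ
    rw [mem_sigma, mem_Icc, mem_powersetCard] at hτ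
    refine ⟨hτ.2.2, fun t ht => ?_⟩
    have := hτ.2.1 ht
    rw [mem_Ioc] at this
    omega
  have hm := h1 H hn1 y hy1 hy2 T0 (fun _ t => P.eval t) hT0 hP (Σ _ : ℕ, Finset ℕ) (WI j W x) WT
    (fun τ hτ i => by rw [card_WT, (hmem τ hτ).1]; exact hj)
    (fun τ hτ i t ht => by
      unfold WT at ht
      rw [mem_image] at ht
      obtain ⟨s, hs, rfl⟩ := ht
      have h5 := (hmem τ hτ).2 s hs
      apply hpt s (le_trans (by exact_mod_cast h5) hx) 0
      rw [TT_GX, mem_singleton]) w hw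
  refine hm.trans ?_
  apply mul_le_mul_of_nonneg_left _ (NN_pos (D1 d) H).le
  obtain ⟨L, hLd⟩ : ∃ L, L = Real.log H := ⟨_, rfl⟩
  rw [← hLd] at hL hL0 hL1 a2 hW ⊢
  have hΛr : (2 : ℝ) ≤ Λ := by exact_mod_cast hΛ
  have hΛ1 : (1 : ℝ) ≤ Λ := by linarith
  have hps := pairs_WI j W x (2 * L) (Λ * L) (by linarith) (by nlinarith) hW
  have hx0 : (0 : ℝ) ≤ x := Nat.cast_nonneg x
  have hy0 : (0 : ℝ) ≤ y := Nat.cast_nonneg y
  have hW0 : (0 : ℝ) ≤ W := Nat.cast_nonneg W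
  have hWj : (W : ℝ) ^ j ≤ Λ ^ j * L ^ j := by
    rw [← mul_pow]
    exact pow_le_pow_left₀ hW0 hW j
  have hcard : ((WI j W x).card : ℝ) ≤ x * (Λ ^ j * L ^ j) := by
    have h5 : ((WI j W x).card : ℝ) ≤ x * (W : ℝ) ^ j := by exact_mod_cast card_WI j W x
    exact h5.trans (mul_le_mul_of_nonneg_left hWj hx0)
  have hcard2 : ((WI j W x).card : ℝ) ^ 2 ≤ (Λ : ℝ) ^ (2 * d) * (x * L ^ j) ^ 2 := by
    calc ((WI j W x).card : ℝ) ^ 2 ≤ (x * (Λ ^ j * L ^ j)) ^ 2 := pow_le_pow_left₀ (Nat.cast_nonneg _) hcard 2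
      _ = (Λ : ℝ) ^ (2 * j) * (x * L ^ j) ^ 2 := by
          rw [mul_comm 2 j, pow_mul]
          ring
      _ ≤ (Λ : ℝ) ^ (2 * d) * (x * L ^ j) ^ 2 := by
          apply mul_le_mul_of_nonneg_right _ (by positivity)
          exact pow_le_pow_right₀ hΛ1 (by omega)
  have hpair : (x : ℝ) * W ^ j * (2 ^ j * (Λ * L) ^ (j + 1)) ≤ ((Λ : ℝ) ^ d * (2 ^ d * (Λ : ℝ) ^ (d + 1))) * (x * L ^ (2 * j + 1)) := by
    calc (x : ℝ) * W ^ j * (2 ^ j * (Λ * L) ^ (j + 1)) ≤ (x : ℝ) * (Λ ^ j * L ^ j) * (2 ^ j * (Λ * L) ^ (j + 1)) := by gcongr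
      _ = ((Λ : ℝ) ^ j * (2 ^ j * (Λ : ℝ) ^ (j + 1))) * (x * L ^ (2 * j + 1)) := by
          rw [mul_pow, show 2 * j + 1 = j + (j + 1) by omega, pow_add L j (j + 1)]
          ring
      _ ≤ _ := by
          apply mul_le_mul_of_nonneg_right _ (by positivity)
          apply mul_le_mul (pow_le_pow_right₀ hΛ1 hj) _ (by positivity) (by positivity)
          apply mul_le_mul (pow_le_pow_right₀ (by norm_num) hj) (pow_le_pow_right₀ hΛ1 (by omega)) (by positivity) (by positivity)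
  have e1 : L ^ (e' / 2) * L ^ (e' / 2) = L ^ e' := by
    rw [← Real.rpow_add hL0]; congr 1; ring
  obtain ⟨c1, hc1⟩ : ∃ c1 : ℝ, c1 = (Λ : ℝ) ^ (2 * d) := ⟨_, rfl⟩
  obtain ⟨c2, hc2⟩ : ∃ c2 : ℝ, c2 = (Λ : ℝ) ^ d * (2 ^ d * (Λ : ℝ) ^ (d + 1)) := ⟨_, rfl⟩
  have hc10 : 0 ≤ c1 := by rw [hc1]; positivity
  have hc20 : 0 ≤ c2 := by rw [hc2]; positivity
  rw [← hc1] at hcard2 a2
  rw [← hc2] at hpair a2
  have hu : 0 ≤ ((x : ℝ) * L ^ j) ^ 2 / y := by positivity
  have hv : 0 ≤ (x : ℝ) * L ^ (2 * j + 1) := by positivity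
  calc L ^ (e' / 2) * (((WI j W x).card : ℝ) ^ 2 / y + _) ≤ L ^ (e' / 2) * (c1 * (x * L ^ j) ^ 2 / y + c2 * (x * L ^ (2 * j + 1))) := by
        apply mul_le_mul_of_nonneg_left _ (by positivity)
        apply add_le_add
        · gcongr
        · exact hps.trans hpair
    _ ≤ L ^ (e' / 2) * ((c1 + c2) * (((x : ℝ) * L ^ j) ^ 2 / y + x * L ^ (2 * j + 1))) := by
        apply mul_le_mul_of_nonneg_left _ (by positivity)
        have h6 : c1 * ((x : ℝ) * L ^ j) ^ 2 / y = c1 * (((x : ℝ) * L ^ j) ^ 2 / y) := by ring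
        rw [h6]
        nlinarith [mul_nonneg hc10 hv, mul_nonneg hc20 hu]
    _ ≤ L ^ (e' / 2) * (L ^ (e' / 2) * (((x : ℝ) * L ^ j) ^ 2 / y + x * L ^ (2 * j + 1))) := by gcongr
    _ = _ := by rw [← mul_assoc, e1]

end Pool.Agent.T9h23.PS
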