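import Mathlib
import Pool.Agent.T9h23.PS.P2

/-! The sieve model in short windows; from the weights to the primes. -/

set_option autoImplicit false

namespace Pool.Agent.T9h23.PS
open Finset Polynomial
open Pool.Agent.H373R2.T7
open Pool.Agent.T9h23.Cor
open Pool.Agent.T9h23.BH

lemma om_shift (q : ℤ[X]) (n p : ℕ) : om (q.comp (X + C (n : ℤ))) p = om q p := by
  classical
  have hper : Function.Periodic (fun m : ℕ => (p : ℤ) ∣ q.eval (m : ℤ)) p := by
    intro m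
    have h1 : (((m + p : ℕ) : ℤ) - (m : ℤ)) ∣ q.eval ((m + p : ℕ) : ℤ) - q.eval (m : ℤ) := sub_dvd_eval_sub _ _ q
    have e : (((m + p : ℕ) : ℤ) - (m : ℤ)) = p := by push_cast; ring
    rw [e] at h1
    apply propext
    constructor
    · intro h
      have := dvd_sub h h1
      simpa using this
    · intro h
      have := dvd_add h1 h
      simpa using this
  have h1 := Nat.filter_Ico_card_eq_of_periodic n p (fun m : ℕ => (p : ℤ) ∣ q.eval (m : ℤ)) hper
  have h2 := Nat.count_eq_card_filter_range (fun m : ℕ => (p : ℤ) ∣ q.eval (m : ℤ)) p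
  unfold om
  rw [← h2, ← h1]
  apply card_nbij (fun s => s + n)
  · intro s hs
    rw [mem_coe, mem_filter, mem_range] at hs
    rw [mem_coe, mem_filter, mem_Ico]
    refine ⟨⟨Nat.le_add_left n s, by show s + n < n + p; omega⟩, ?_⟩
    have h3 := hs.2
    rw [eval_comp, eval_add, eval_X, eval_C] at h3
    push_cast
    exact h3
  · intro a _ b _ h
    have h' : a + n = b + n := h
    omega
  · intro m hm
    rw [mem_coe, mem_filter, mem_Ico] at hm
    refine ⟨m - n, ?_, ?_⟩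
    · rw [mem_coe, mem_filter, mem_range]
      refine ⟨by omega, ?_⟩
      rw [eval_comp, eval_add, eval_X, eval_C]
      have e : (((m - n : ℕ) : ℤ) + (n : ℤ)) = m := by
        push_cast [Nat.cast_sub hm.1.1]
        ring
      rw [e]
      exact hm.2
    · show m - n + n = m
      omega

lemma Dn_shift (q : ℤ[X]) (n y : ℕ) : Dn (q.comp (X + C (n : ℤ))) y = Dn q y := by
  unfold Dn
  refine prod_congr rfl fun p _ => ?_
  rw [om_shift]

lemma deg_shift (q : ℤ[X]) (n : ℕ) : (q.comp (X + C (n : ℤ))).natDegree = q.natDegree := by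
  rw [natDegree_comp, natDegree_X_add_C, mul_one]

/-- the model in a window -/
lemma window_model (q : ℤ[X]) (n W y : ℕ) (ε : ℝ)
    (hs : |((((Icc 1 W).filter (fun s : ℕ => ∀ p ∈ pz y, ¬ (p : ℤ) ∣ (q.comp (X + C (n : ℤ))).eval (s : ℤ))).card : ℕ) : ℝ) -
      W * Dn (q.comp (X + C (n : ℤ))) y| ≤ ε * (W * Dn (q.comp (X + C (n : ℤ))) y) + √(W : ℝ)) :
    |∑ t ∈ Ioc n (n + W), lz y (q.eval (t : ℤ)) - W * BH.CC q 1 y| ≤ ε * (W * BH.CC q 1 y) + (Vz y)⁻¹ * √(W : ℝ) := by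
  classical
  have hV0 : 0 ≤ (Vz y)⁻¹ := (inv_pos.2 (Vz_pos y)).le
  have e1 : ∑ t ∈ Ioc n (n + W), lz y (q.eval (t : ℤ)) =
      (Vz y)⁻¹ * ((((Icc 1 W).filter (fun s : ℕ => ∀ p ∈ pz y, ¬ (p : ℤ) ∣ (q.comp (X + C (n : ℤ))).eval (s : ℤ))).card : ℕ) : ℝ) := by
    rw [card_filter]
    push_cast
    rw [mul_sum]
    symm
    apply sum_nbij (fun s => n + s)
    · intro s hs
      rw [mem_Icc] at hs
      rw [mem_Ioc]
      omega
    · intro a _ b _ h
      have h' : n + a = n + b := h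
      omega
    · intro t ht
      rw [mem_coe, mem_Ioc] at ht
      exact ⟨t - n, by rw [mem_coe, mem_Icc]; omega, by show n + (t - n) = t; omega⟩
    · intro s _
      have e2 : (q.comp (X + C (n : ℤ))).eval (s : ℤ) = q.eval (((n + s : ℕ)) : ℤ) := by
        rw [eval_comp, eval_add, eval_X, eval_C]
        push_cast
        rw [add_comm]
      rw [e2]
      unfold lz lamz
      by_cases h : ∀ p ∈ pz y, ¬ (p : ℤ) ∣ q.eval (((n + s : ℕ)) : ℤ)
      · rw [if_pos h, mul_one, if_pos]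
        intro p hp hd
        exact h p hp (Int.natCast_dvd.2 hd)
      · rw [if_neg h, mul_zero, if_neg]
        intro h2
        exact h fun p hp hd => h2 p hp (Int.natCast_dvd.1 hd)
  rw [Dn_shift] at hs
  rw [e1]
  obtain ⟨N, hN⟩ : ∃ N : ℝ, N = ((((Icc 1 W).filter (fun s : ℕ => ∀ p ∈ pz y, ¬ (p : ℤ) ∣ (q.comp (X + C (n : ℤ))).eval (s : ℤ))).card : ℕ) : ℝ) := ⟨_, rfl⟩
  rw [← hN] at hs ⊢
  have e3 : (Vz y)⁻¹ * N - W * BH.CC q 1 y = (Vz y)⁻¹ * (N - W * Dn q y) := by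
    unfold BH.CC; ring
  rw [e3, abs_mul, abs_of_nonneg hV0]
  refine (mul_le_mul_of_nonneg_left hs hV0).trans (le_of_eq ?_)
  unfold BH.CC
  ring

/-- the elementary symmetric sums of the model in a window -/
lemma ES_window (v : ℕ → ℝ) (hv : ∀ t, 0 ≤ v t) (b : ℝ) (hb : ∀ t, v t ≤ b) (A : Finset ℕ) (Z η ε : ℝ) (hZ : 0 ≤ Z) (hη : 0 < η)
    (hε : 0 < ε) (hε1 : ε ≤ 1) (d j : ℕ) (hj : j ≤ d) (hηε : 2 * (d + 2) * η ≤ ε)
    (hS : |∑ t ∈ A, v t - Z| ≤ η * Z) (hbZ : ((d : ℝ) + 1) ^ 2 * b ≤ η * ((1 - η) * Z)) :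
    |ES v A j - Z ^ j / (j.factorial : ℝ)| ≤ ε * (Z ^ j / (j.factorial : ℝ)) := by
  have hd0 : (0 : ℝ) ≤ d := Nat.cast_nonneg d
  have hη1 : η ≤ 1 := by nlinarith
  have hb0 : 0 ≤ b := (hv 0).trans (hb 0)
  have hpn := pow_near (j + 1) (d + 1) (by omega) η ε hη hε hε1 (by push_cast; linarith)
  have hpn' := pow_near j (d + 1) (by omega) η ε hη hε hε1 (by push_cast; linarith)
  obtain ⟨S, hSd⟩ : ∃ S, S = ∑ t ∈ A, v t := ⟨_, rfl⟩
  have hfac : (0 : ℝ) < (j.factorial : ℝ) := by positivity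
  have hup := ES_upper hv A j
  rw [← hSd] at hS hup
  rw [abs_le] at hS
  have hS1 : S ≤ (1 + η) * Z := by linarith [hS.2]
  have hS2 : (1 - η) * Z ≤ S := by linarith [hS.1]
  have hS0 : 0 ≤ S := by
    rw [hSd]
    exact sum_nonneg fun t _ => hv t
  have hZj : 0 ≤ Z ^ j := pow_nonneg hZ j
  have h1 : (j.factorial : ℝ) * ES v A j ≤ (1 + ε) * Z ^ j := by
    calc (j.factorial : ℝ) * ES v A j ≤ S ^ j := hup
      _ ≤ ((1 + η) * Z) ^ j := pow_le_pow_left₀ hS0 hS1 j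
      _ = (1 + η) ^ j * Z ^ j := mul_pow _ _ _
      _ ≤ (1 + ε) * Z ^ j := mul_le_mul_of_nonneg_right hpn'.2 hZj
  have h2 : (1 - ε) * Z ^ j ≤ (j.factorial : ℝ) * ES v A j := by
    rcases j with _ | j
    · rw [ES_zero]
      simp
      linarith
    · have h3 := ES_lower hv hb A j
      rw [← hSd] at h3
      have hjd : ((j : ℝ) + 1) ≤ d + 1 := by
        have : j ≤ d := by omega
        have : (j : ℝ) ≤ d := by exact_mod_cast this
        linarith
      have h4 : ((j : ℝ) + 1) ^ 2 * b ≤ η * S := by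
        calc ((j : ℝ) + 1) ^ 2 * b ≤ ((d : ℝ) + 1) ^ 2 * b := by gcongr
          _ ≤ η * ((1 - η) * Z) := hbZ
          _ ≤ η * S := by gcongr
      calc (1 - ε) * Z ^ (j + 1) ≤ (1 - η) ^ (j + 1 + 1) * Z ^ (j + 1) := mul_le_mul_of_nonneg_right hpn.1 hZj
        _ = (1 - η) * ((1 - η) * Z) ^ (j + 1) := by rw [mul_pow, pow_succ (1 - η) (j + 1)]; ring
        _ ≤ (1 - η) * S ^ (j + 1) := by
            apply mul_le_mul_of_nonneg_left _ (by linarith)
            exact pow_le_pow_left₀ (mul_nonneg (by linarith) hZ) hS2 _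
        _ = S ^ (j + 1) - (η * S) * S ^ j := by rw [pow_succ]; ring
        _ ≤ S ^ (j + 1) - (((j : ℝ) + 1) ^ 2 * b) * S ^ j := by
            have := mul_le_mul_of_nonneg_right h4 (pow_nonneg hS0 j)
            linarith
        _ ≤ _ := h3
  have e1 : ES v A j - Z ^ j / (j.factorial : ℝ) = ((j.factorial : ℝ) * ES v A j - Z ^ j) / (j.factorial : ℝ) := by
    field_simp
  have e2 : ε * (Z ^ j / (j.factorial : ℝ)) = (ε * Z ^ j) / (j.factorial : ℝ) := by ring
  rw [e1, e2, abs_div, abs_of_pos hfac]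
  apply div_le_div_of_nonneg_right _ hfac.le
  rw [abs_le]
  constructor <;> linarith

/-- the value at `t` is a prime, up to sign -/
def PV (q : ℤ[X]) (t : ℕ) : Prop := (q.eval (t : ℤ)).natAbs.Prime

/-- the number of the prime values in the window `(n, n + W]` -/
noncomputable def NW (q : ℤ[X]) (W n : ℕ) : ℕ := open Classical in ((Ioc n (n + W)).filter (fun t => PV q t)).card

/-- the `j`-th binomial moment, not normalized -/
noncomputable def AM (q : ℤ[X]) (W j x : ℕ) : ℕ := ∑ n ∈ Icc 1 x, (NW q W n).choose j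

lemma NW_mono (q : ℤ[X]) {W W' : ℕ} (h : W ≤ W') (n : ℕ) : NW q W n ≤ NW q W' n := by
  classical
  unfold NW
  exact card_le_card (filter_subset_filter _ (Ioc_subset_Ioc_right (by omega)))

lemma AM_mono (q : ℤ[X]) {W W' x x' : ℕ} (hW : W ≤ W') (hx : x ≤ x') (j : ℕ) : AM q W j x ≤ AM q W' j x' := by
  unfold AM
  calc ∑ n ∈ Icc 1 x, (NW q W n).choose j ≤ ∑ n ∈ Icc 1 x, (NW q W' n).choose j :=
        sum_le_sum fun n _ => Nat.choose_le_choose j (NW_mono q hW n)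
    _ ≤ _ := sum_le_sum_of_subset (Icc_subset_Icc_right hx)

/-- the weights and the primes -/
lemma ES_primes (q : ℤ[X]) (L η ε : ℝ) (hL : 0 ≤ L) (hη : 0 < η) (hε : 0 < ε) (hε1 : ε ≤ 1) (d j : ℕ) (hj : j ≤ d)
    (hηε : 2 * (d + 1) * η ≤ ε) (W n : ℕ)
    (h1 : ∀ t ∈ Ioc n (n + W), PV q t → (1 - η) * L ≤ Lam (q.eval (t : ℤ)) ∧ Lam (q.eval (t : ℤ)) ≤ (1 + η) * L)
    (h0 : ∀ t ∈ Ioc n (n + W), ¬ PV q t → Lam (q.eval (t : ℤ)) = 0) :
    |ES (fun t => Lam (q.eval (t : ℤ))) (Ioc n (n + W)) j - L ^ j * ((NW q W n).choose j : ℝ)| ≤ ε * (L ^ j * ((NW q W n).choose j : ℝ)) := by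
  classical
  have hd0 : (0 : ℝ) ≤ d := Nat.cast_nonneg d
  have hη1 : η ≤ 1 := by nlinarith
  have hpn := pow_near j d hj η ε hη hε hε1 hηε
  have hind : ES (fun t => if PV q t then 1 else 0) (Ioc n (n + W)) j = ((NW q W n).choose j : ℝ) := by
    rw [ES_ind]
    unfold NW
    rfl
  have hc0 : (0 : ℝ) ≤ ((NW q W n).choose j : ℝ) := Nat.cast_nonneg _
  have hup : ES (fun t => Lam (q.eval (t : ℤ))) (Ioc n (n + W)) j ≤ ((1 + η) * L) ^ j * ((NW q W n).choose j : ℝ) := by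
    rw [← hind, ← ES_const_mul]
    apply ES_mono (fun t => Lam_nonneg _)
    intro t ht
    by_cases h : PV q t
    · simp only [h, if_true, mul_one]
      exact (h1 t ht h).2
    · simp only [h, if_false, mul_zero]
      exact (h0 t ht h).le
  have hlow : ((1 - η) * L) ^ j * ((NW q W n).choose j : ℝ) ≤ ES (fun t => Lam (q.eval (t : ℤ))) (Ioc n (n + W)) j := by
    rw [← hind, ← ES_const_mul]
    apply ES_mono
    · intro t
      have : 0 ≤ (1 - η) * L := mul_nonneg (by linarith) hL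
      split_ifs <;> linarith
    intro t ht
    by_cases h : PV q t
    · simp only [h, if_true, mul_one]
      exact (h1 t ht h).1
    · simp only [h, if_false, mul_zero]
      exact (h0 t ht h).ge
  rw [mul_pow] at hup hlow
  have hLj : 0 ≤ L ^ j * ((NW q W n).choose j : ℝ) := mul_nonneg (pow_nonneg hL j) hc0
  have h3 : (1 + η) ^ j * L ^ j * ((NW q W n).choose j : ℝ) ≤ (1 + ε) * (L ^ j * ((NW q W n).choose j : ℝ)) := by
    rw [mul_assoc]
    exact mul_le_mul_of_nonneg_right hpn.2 hLj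
  have h4 : (1 - ε) * (L ^ j * ((NW q W n).choose j : ℝ)) ≤ (1 - η) ^ j * L ^ j * ((NW q W n).choose j : ℝ) := by
    rw [mul_assoc]
    exact mul_le_mul_of_nonneg_right hpn.1 hLj
  rw [abs_le]
  constructor <;> linarith

end Pool.Agent.T9h23.PS
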