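import Mathlib
import Pool.Agent.T9h23.PS.P3

/-! The steps for the distribution in short windows. -/

set_option autoImplicit false

namespace Pool.Agent.T9h23.PS
open Finset Polynomial
open Pool.Agent.H373R2.T7
open Pool.Agent.T9h23.Cor
open Pool.Agent.T9h23.BH

/-- the weights at the values of a tame polynomial -/
theorem range_zero (r : ℕ) (dd : Fin r → ℕ) (A B C : ℕ) (η : ℝ) (hη0 : 0 < η) :
    ∃ H0 : ℕ, ∀ H : ℕ, H0 ≤ H → ∀ (T0 : ℕ) (P : Fin r → ℤ[X]),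
    (T0 : ℝ) ≤ Real.log H ^ B → (∀ j, ∀ t : ℤ, |t| ≤ T0 → |(((P j).eval t : ℤ) : ℝ)| ≤ H * Real.log H ^ A) →
    ∀ f ∈ Om dd H, Tame H B C P f → ∀ j, ∀ t : ℤ, |t| ≤ (T0 : ℤ) →
      ((fv (fun t => (P j).eval t) (f j) t).natAbs.Prime →
        (1 - η) * Real.log H ≤ Lam (fv (fun t => (P j).eval t) (f j) t) ∧
        Lam (fv (fun t => (P j).eval t) (f j) t) ≤ (1 + η) * Real.log H) ∧
      (¬ (fv (fun t => (P j).eval t) (f j) t).natAbs.Prime → Lam (fv (fun t => (P j).eval t) (f j) t) = 0) := by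
  classical
  obtain ⟨km, hkm⟩ : ∃ km, km = ∑ j, dd j := ⟨_, rfl⟩
  obtain ⟨A', hA'⟩ : ∃ A', A' = A + B := ⟨_, rfl⟩
  obtain ⟨C2, hC2⟩ : ∃ C2, C2 = A' * km + A' + 1 := ⟨_, rfl⟩
  obtain ⟨n0, h0⟩ := ev_L' (2 * km + 3)
  have hlog : ∃ n1 : ℕ, ∀ H : ℕ, n1 ≤ H → ((C : ℝ) + C2) * Real.log (Real.log H) ≤ η * Real.log H := by
    have hlim : Filter.Tendsto (fun N : ℕ => Real.log (N : ℝ)) Filter.atTop Filter.atTop :=
      Real.tendsto_log_atTop.comp (tendsto_natCast_atTop_atTop (R := ℝ))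
    have h3 := Real.isLittleO_log_id_atTop.bound (show (0 : ℝ) < η / (C + C2 + 1) by positivity)
    have h4 := hlim.eventually h3
    obtain ⟨n1, h1⟩ := Filter.eventually_atTop.1 (h4.and (hlim.eventually_ge_atTop 1))
    refine ⟨n1, fun H hH => ?_⟩
    obtain ⟨h5, h6⟩ := h1 H hH
    have h7 : 0 ≤ Real.log (Real.log H) := Real.log_nonneg h6
    simp only [id] at h5
    rw [Real.norm_of_nonneg h7, Real.norm_of_nonneg (by linarith)] at h5
    calc ((C : ℝ) + C2) * Real.log (Real.log H) ≤ ((C : ℝ) + C2 + 1) * (η / (C + C2 + 1) * Real.log H) :=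
          mul_le_mul (by linarith) h5 h7 (by positivity)
      _ = η * Real.log H := by field_simp
  obtain ⟨n1, h1⟩ := hlog
  refine ⟨max n0 (max n1 4), fun H hH T0 P hT0 hP f hf htame j t ht => ?_⟩
  have hn0 : n0 ≤ H := (le_max_left _ _).trans hH
  have hn1 : n1 ≤ H := ((le_max_left _ _).trans (le_max_right _ _)).trans hH
  have hH4 : 4 ≤ H := ((le_max_right _ _).trans (le_max_right _ _)).trans hH
  have hHr : (4 : ℝ) ≤ H := by exact_mod_cast hH4
  have hH0 : (0 : ℝ) < H := by linarith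
  have hL := h0 H hn0
  have a1 := h1 H hn1
  obtain ⟨L, hLd⟩ : ∃ L, L = Real.log H := ⟨_, rfl⟩
  rw [← hLd] at hL a1 hT0 hP ⊢
  have hk0 : (0 : ℝ) ≤ km := Nat.cast_nonneg _
  have hL1 : 1 ≤ L := by linarith
  have hL0 : 0 < L := by linarith
  have hLL0 : 0 ≤ Real.log L := Real.log_nonneg hL1
  unfold Om at hf
  rw [Fintype.mem_piFinset] at hf
  have htr : |(t : ℝ)| ≤ Real.log H ^ B := by
    have h7 : ((|t| : ℤ) : ℝ) ≤ ((T0 : ℤ) : ℝ) := by exact_mod_cast ht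
    push_cast at h7
    rw [← hLd]
    exact h7.trans hT0
  -- the size of the values
  have hval : |((fv (fun t => (P j).eval t) (f j) t : ℤ) : ℝ)| ≤ H * L ^ C2 := by
    have hddk : dd j ≤ km := by rw [hkm]; exact single_le_sum (f := dd) (fun _ _ => Nat.zero_le _) (mem_univ j)
    have hddr : (dd j : ℝ) ≤ km := by exact_mod_cast hddk
    have h5 := fv_le H L A' (d := dd j) (by linarith) T0 (hT0.trans (pow_le_pow_right₀ hL1 (by omega))) (fun t => (P j).eval t)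
      (fun t ht => (hP j t ht).trans (by
        apply mul_le_mul_of_nonneg_left _ hH0.le
        exact pow_le_pow_right₀ hL1 (by omega))) (f j) (fun i => by
        have h6 := (mem_Box.1 (hf j)) i
        have h0H : (0 : ℤ) ≤ H := by positivity
        linarith) t ht
    refine h5.trans ?_
    apply mul_le_mul_of_nonneg_left _ hH0.le
    apply pow_le_pow_right₀ hL1
    rw [hC2]
    have := Nat.mul_le_mul_left A' hddk
    omega
  constructor
  · intro hp
    have h6 := (htame j t htr).1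
    rw [← hLd] at h6
    obtain ⟨u, hu⟩ : ∃ u : ℤ, u = fv (fun t => (P j).eval t) (f j) t := ⟨_, rfl⟩
    rw [← hu] at hval h6 hp ⊢
    have h7 : Lam u = Real.log |(u : ℝ)| := by
      unfold Lam
      rw [ArithmeticFunction.vonMangoldt_apply_prime hp, Nat.cast_natAbs, Int.cast_abs]
    have hHL : 0 < (H : ℝ) / L ^ C := by positivity
    have h8 : Real.log ((H : ℝ) / L ^ C) = L - C * Real.log L := by
      rw [Real.log_div hH0.ne' (by positivity), Real.log_pow, ← hLd]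
    have h9 : Real.log ((H : ℝ) * L ^ C2) = L + C2 * Real.log L := by
      rw [Real.log_mul hH0.ne' (by positivity), Real.log_pow, ← hLd]
    have h10 := Real.log_le_log hHL h6
    have h11 := Real.log_le_log (lt_of_lt_of_le hHL h6) hval
    rw [h8] at h10
    rw [h9] at h11
    rw [h7]
    have hC0 : 0 ≤ (C : ℝ) * Real.log L := by positivity
    have hC20 : 0 ≤ (C2 : ℝ) * Real.log L := by positivity
    constructor <;> linarith
  · intro hp
    have h6 := (htame j t htr).2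
    unfold PPow at h6
    by_contra hcon
    exact h6 ⟨hp, hcon⟩

/-- between the points of the grids, and the change of the constant -/
lemma num5 (N N1 N2 x X1 X2 w W1 W2 Cy Cz jf η ε : ℝ) (j d : ℕ) (hjd : j ≤ d) (hη0 : 0 < η) (hε0 : 0 < ε) (hε1 : ε ≤ 1)
    (hηε : 2 * (2 * (d : ℝ) + 3) * η ≤ ε) (hjf : 0 < jf) (hX1 : 0 ≤ X1) (hW1 : 0 ≤ W1) (hCy : 0 ≤ Cy) (hCz : 0 ≤ Cz)
    (hN1 : N1 ≤ N) (hN2 : N ≤ N2) (hx1 : X1 ≤ x) (hx2 : x ≤ X2) (hx12 : X2 ≤ (1 + η) * X1)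
    (hw1 : W1 ≤ w) (hw2 : w ≤ W2) (hw12 : W2 ≤ (1 + η) * W1)
    (h1 : |N1 - X1 * ((W1 * Cy) ^ j / jf)| ≤ η * (X1 * ((W1 * Cy) ^ j / jf)))
    (h2 : |N2 - X2 * ((W2 * Cy) ^ j / jf)| ≤ η * (X2 * ((W2 * Cy) ^ j / jf))) (hz : |Cz - Cy| ≤ η / 2 * Cy) :
    |N - x * ((w * Cz) ^ j / jf)| ≤ ε * (x * ((w * Cz) ^ j / jf)) := by
  have hd0 : (0 : ℝ) ≤ d := Nat.cast_nonneg d
  have hη1 : η ≤ 1 / 6 := by nlinarith
  have hpn := pow_near (2 * j + 2) (2 * d + 2) (by omega) η ε hη0 hε0 hε1 (by push_cast; linarith)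
  have hx0 : 0 ≤ x := hX1.trans hx1
  have hw0 : 0 ≤ w := hW1.trans hw1
  rw [abs_le] at h1 h2 hz
  have hm0 : 0 ≤ x * ((w * Cz) ^ j / jf) := by positivity
  -- the comparisons of the parameters
  have a1 : X2 ≤ (1 + η) * x := hx12.trans (by gcongr)
  have a2 : W2 ≤ (1 + η) * w := hw12.trans (by gcongr)
  have a3 : Cy ≤ (1 + η) * Cz := by
    have h3 : (1 - η / 2) * Cy ≤ Cz := by linarith [hz.1]
    have h4 : (1 + η) * ((1 - η / 2) * Cy) ≤ (1 + η) * Cz := by gcongr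
    have h5 : Cy ≤ (1 + η) * ((1 - η / 2) * Cy) := by
      have : 0 ≤ η * Cy := by positivity
      have h6 : η * (η * Cy) ≤ 1 / 6 * (η * Cy) := mul_le_mul_of_nonneg_right hη1 this
      nlinarith
    linarith
  have b1 : (1 - η) * x ≤ X1 := by
    have h3 : x ≤ (1 + η) * X1 := hx2.trans hx12
    have h4 : (1 - η) * x ≤ (1 - η) * ((1 + η) * X1) := mul_le_mul_of_nonneg_left h3 (by linarith)
    nlinarith [mul_nonneg (mul_nonneg hη0.le hη0.le) hX1]
  have b2 : (1 - η) * w ≤ W1 := by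
    have h3 : w ≤ (1 + η) * W1 := hw2.trans hw12
    have h4 : (1 - η) * w ≤ (1 - η) * ((1 + η) * W1) := mul_le_mul_of_nonneg_left h3 (by linarith)
    nlinarith [mul_nonneg (mul_nonneg hη0.le hη0.le) hW1]
  have b3 : (1 - η) * Cz ≤ Cy := by
    have h3 : Cz ≤ (1 + η / 2) * Cy := by linarith [hz.2]
    have h4 : (1 - η) * Cz ≤ (1 - η) * ((1 + η / 2) * Cy) := mul_le_mul_of_nonneg_left h3 (by linarith)
    nlinarith [mul_nonneg (mul_nonneg hη0.le hη0.le) hCy, mul_nonneg hη0.le hCy]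
  have h1η : 0 ≤ 1 - η := by linarith
  have hup : N ≤ (1 + η) ^ (2 * j + 2) * (x * ((w * Cz) ^ j / jf)) := by
    calc N ≤ N2 := hN2
      _ ≤ (1 + η) * (X2 * ((W2 * Cy) ^ j / jf)) := by linarith [h2.2]
      _ ≤ (1 + η) * (((1 + η) * x) * ((((1 + η) * w) * ((1 + η) * Cz)) ^ j / jf)) := by
          have hX2 : 0 ≤ X2 := hx0.trans hx2
          have hW2 : 0 ≤ W2 := hw0.trans hw2
          gcongr
      _ = _ := by
          have e1 : ((1 + η) * w) * ((1 + η) * Cz) = (1 + η) ^ 2 * (w * Cz) := by ring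
          rw [e1, mul_pow ((1 + η) ^ 2), ← pow_mul, pow_add]
          ring
  have hlow : (1 - η) ^ (2 * j + 2) * (x * ((w * Cz) ^ j / jf)) ≤ N := by
    calc (1 - η) ^ (2 * j + 2) * (x * ((w * Cz) ^ j / jf)) = (1 - η) * (((1 - η) * x) * ((((1 - η) * w) * ((1 - η) * Cz)) ^ j / jf)) := by
          have e1 : ((1 - η) * w) * ((1 - η) * Cz) = (1 - η) ^ 2 * (w * Cz) := by ring
          rw [e1, mul_pow ((1 - η) ^ 2), ← pow_mul, pow_add]
          ring
      _ ≤ (1 - η) * (X1 * ((W1 * Cy) ^ j / jf)) := by gcongr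
      _ ≤ N1 := by linarith [h1.1]
      _ ≤ N := hN1
  have h8 := mul_le_mul_of_nonneg_right hpn.1 hm0
  have h9 := mul_le_mul_of_nonneg_right hpn.2 hm0
  rw [abs_le]
  constructor <;> linarith

/-- a fixed divisor excludes primes in the windows -/
lemma NW_zero {d D H B C : ℕ} (hd : 1 ≤ d) (hD : 1 ≤ D) (P : ℤ[X]) (f : (j : Fin 1) → (Fin (D1 d j + 1) → ℤ))
    (htame : Tame H B C (fun _ => P) f) (T0 X y : ℕ) (hT0 : (T0 : ℝ) ≤ Real.log H ^ B) (hX : X ≤ T0)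
    (hy : (y : ℝ) < H / Real.log H ^ C) (hDn : Dn (hpol P (f 0)) y = 0) (W n : ℕ) (hn : n + W ≤ X) : NW (hpol P (f 0)) W n = 0 := by
  classical
  have h1 : pc GX (fun _ => P) f X = 0 := by
    apply pc_zero GX (fun _ => P) f (GX_ok hd hD) htame T0 X y hT0 _ hy
    · rw [qq_GX]; exact hDn
    · intro m hm j t ht
      rw [TT_GX, mem_singleton] at ht
      rw [ht, Int.abs_eq_natAbs, Int.natAbs_natCast]
      exact_mod_cast hm.trans hX
  unfold pc at h1
  rw [card_eq_zero, filter_eq_empty_iff] at h1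
  unfold NW
  rw [card_eq_zero, filter_eq_empty_iff]
  intro t ht hp
  rw [mem_Ioc] at ht
  apply h1 (x := t) (by rw [mem_Icc]; omega)
  intro j g hg
  unfold GX at hg
  rw [mem_singleton] at hg
  rw [hg, comp_X]
  have hj : j = 0 := Subsingleton.elim _ _
  subst hj
  exact hp

/-- the bound for the weights of the model -/
lemma lz_le (y : ℕ) (u : ℤ) : lz y u ≤ (Vz y)⁻¹ := by
  have hV0 : 0 ≤ (Vz y)⁻¹ := (inv_pos.2 (Vz_pos y)).le
  unfold lz lamz
  split_ifs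
  · exact le_rfl
  · exact hV0

lemma lz_nonneg' (y : ℕ) (u : ℤ) : 0 ≤ lz y u := by
  have hV0 : 0 ≤ (Vz y)⁻¹ := (inv_pos.2 (Vz_pos y)).le
  unfold lz lamz
  split_ifs
  · exact hV0
  · exact le_rfl

end Pool.Agent.T9h23.PS
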