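import Mathlib
import Pool.Agent.T9h23.PS.P4

/-! The moments of the number of the prime values in short windows. -/

set_option autoImplicit false

namespace Pool.Agent.T9h23.PS
open Finset Polynomial
open Pool.Agent.H373R2.T7
open Pool.Agent.T9h23.Cor
open Pool.Agent.T9h23.BH

/-- one point of the grids -/
lemma wpt (q : ℤ[X]) (d j X W y : ℕ) (hj : j ≤ d) (L η' ε1 δ : ℝ) (hL : 0 < L) (hη' : 0 < η') (hε10 : 0 < ε1) (hε1 : ε1 ≤ 1 / 20)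
    (hηε : 2 * ((d : ℝ) + 2) * η' ≤ ε1) (hX : 0 < X) (hδ0 : 0 ≤ δ)
    (hmodel : ∀ n : ℕ, |∑ t ∈ Ioc n (n + W), lz y (q.eval (t : ℤ)) - W * BH.CC q 1 y| ≤ η' * (W * BH.CC q 1 y))
    (hb : ((d : ℝ) + 1) ^ 2 * (Vz y)⁻¹ ≤ η' * ((1 - η') * (W * BH.CC q 1 y)))
    (hpr : ∀ n ∈ Icc 1 X, ∀ t ∈ Ioc n (n + W), (PV q t → (1 - η') * L ≤ Lam (q.eval (t : ℤ)) ∧ Lam (q.eval (t : ℤ)) ≤ (1 + η') * L) ∧
      (¬ PV q t → Lam (q.eval (t : ℤ)) = 0))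
    (hS : |∑ n ∈ Icc 1 X, ES (fun t => Lam (q.eval (t : ℤ))) (Ioc n (n + W)) j -
      ∑ n ∈ Icc 1 X, ES (fun t => lz y (q.eval (t : ℤ))) (Ioc n (n + W)) j| ≤ ε1 * (X * δ))
    (hδ : δ ≤ (W * BH.CC q 1 y) ^ j / (j.factorial : ℝ)) :
    |L ^ j * (AM q W j X : ℝ) - X * ((W * BH.CC q 1 y) ^ j / (j.factorial : ℝ))| ≤
      10 * ε1 * (X * ((W * BH.CC q 1 y) ^ j / (j.factorial : ℝ))) := by
  have hd0 : (0 : ℝ) ≤ d := Nat.cast_nonneg d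
  have hXr : (0 : ℝ) < X := by exact_mod_cast hX
  have hCC := CC_nonneg q 1 y
  have hZ : 0 ≤ (W : ℝ) * BH.CC q 1 y := by positivity
  obtain ⟨Z, hZd⟩ : ∃ Z, Z = (W : ℝ) * BH.CC q 1 y := ⟨_, rfl⟩
  rw [← hZd] at hmodel hb hδ hZ ⊢
  have h1 : |∑ n ∈ Icc 1 X, ES (fun t => Lam (q.eval (t : ℤ))) (Ioc n (n + W)) j - L ^ j * (AM q W j X : ℝ)| ≤
      ε1 * (L ^ j * (AM q W j X : ℝ)) + 0 := by
    unfold AM
    push_cast
    rw [mul_sum, ← sum_sub_distrib, mul_sum, add_zero]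
    refine (abs_sum_le_sum_abs _ _).trans (sum_le_sum fun n hn => ?_)
    apply ES_primes q L η' ε1 hL.le hη' hε10 (by linarith) d j hj (by nlinarith)
    · intro t ht hp
      exact (hpr n hn t ht).1 hp
    · intro t ht hp
      exact (hpr n hn t ht).2 hp
  have h3 : |∑ n ∈ Icc 1 X, ES (fun t => lz y (q.eval (t : ℤ))) (Ioc n (n + W)) j - X * (Z ^ j / (j.factorial : ℝ))| ≤
      ε1 * (X * (Z ^ j / (j.factorial : ℝ))) + 0 := by
    have e1 : (X : ℝ) * (Z ^ j / (j.factorial : ℝ)) = ∑ _n ∈ Icc 1 X, Z ^ j / (j.factorial : ℝ) := by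
      rw [sum_const, Nat.card_Icc, Nat.add_sub_cancel, nsmul_eq_mul]
    rw [e1, ← sum_sub_distrib, mul_sum, add_zero]
    refine (abs_sum_le_sum_abs _ _).trans (sum_le_sum fun n _ => ?_)
    exact ES_window _ (fun t => lz_nonneg' y _) _ (fun t => lz_le y _) _ Z η' ε1 hZ hη' hε10 (by linarith) d j hj hηε (hmodel n) hb
  exact num3 (L ^ j * (AM q W j X : ℝ)) (Z ^ j / (j.factorial : ℝ)) X ε1 δ _ _ 0 0 hε10 hε1 hXr (by positivity) (by positivity) hδ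
    h1 hS h3 (by positivity) (by positivity)

/-- the moments of the number of the prime values in windows -/
def PMom (H A d : ℕ) (ε lam1 lam2 : ℝ) (q : ℤ[X]) : Prop :=
  ∀ x W z : ℕ, Real.log H ^ (1 + ε) ≤ x → (x : ℝ) ≤ Real.log H ^ A → lam1 * Real.log H ≤ W → (W : ℝ) ≤ lam2 * Real.log H →
    Real.log H ^ ε ≤ z → (z : ℝ) ≤ Real.log H ^ A → ∀ j ≤ d,
    |Real.log H ^ j * (AM q W j x : ℝ) - x * ((W * BH.CC q 1 z) ^ j / (j.factorial : ℝ))| ≤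
      ε * (x * ((W * BH.CC q 1 z) ^ j / (j.factorial : ℝ)))


/-- the good polynomials -/
lemma goodf (d H A T0 y M K cd Λ : ℕ) (P : ℤ[X]) (q : ℤ[X]) (L ε lam1 lam2 εm η ε1 η' e' e3 κ2 Yx Yw : ℝ)
    (hLd : L = Real.log H) (hL3 : 3 ≤ L) (hA : 1 ≤ A) (hlam1 : 0 < lam1) (hε : 0 < ε)
    (hεm0 : 0 < εm) (hεm1 : εm ≤ 1) (hεmε : εm ≤ ε)
    (hη0 : 0 < η) (hηε : 2 * (2 * (d : ℝ) + 3) * η ≤ εm) (hη6 : η ≤ 1 / 6) (hε10 : 0 < ε1) (hε1η : 10 * ε1 = η)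
    (hη'0 : 0 < η') (hη'ε : 2 * ((d : ℝ) + 2) * η' ≤ ε1) (hη'1 : η' ≤ 1 / 80)
    (he30 : 0 < e3) (he3a : e3 ≤ 1 / 16) (he'a : e' ≤ 1 / 16) (he3e2 : (d : ℝ) * e3 + e3 = e')
    (hκ2d : κ2 = (min lam1 1) ^ d / (d.factorial : ℝ)) (hκ20 : 0 < κ2) (h7d : 1 / κ2 ≤ L ^ (e3 / 2))
    (h9b : 2 / η' ≤ L ^ ((1 : ℝ) / 8)) (h9c : 2 * ((d : ℝ) + 1) ^ 2 / η' ≤ L ^ ((1 : ℝ) / 8)) (h9d : 1 / ε1 ≤ L ^ ((1 : ℝ) / 8))
    (hΛl : 2 * |lam2| ≤ Λ) (hLΛ : (Λ : ℝ) ≤ L) (hYx : Yx = L ^ (1 + ε)) (hYw : Yw = lam1 * L)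
    (hYwl : L ^ ((7 : ℝ) / 8) ≤ Yw) (hYxl : L ^ ((7 : ℝ) / 8) ≤ Yx)
    (hM2 : ∀ i : ℕ, (1 + ε1) ^ i ≤ L ^ (A + 2) → i ≤ M)
    (hyε : (y : ℝ) ≤ L ^ ε) (hyK : (y : ℝ) ^ K ≤ L ^ ((1 : ℝ) / 2))
    (hsv : ∀ x : ℕ, y ^ K ≤ x → ∀ q : ℤ[X], q.natDegree ≤ cd → ∀ X : ℕ,
      |((((Icc 1 X).filter (fun n : ℕ => ∀ p ∈ pz y, ¬ (p : ℤ) ∣ q.eval (n : ℤ))).card : ℕ) : ℝ) -
      X * Dn q y| ≤ η' / 2 * (X * Dn q y) + √(x : ℝ))
    (hqd : q.natDegree ≤ cd) (hVy : (Vz y)⁻¹ ≤ L ^ e3)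
    (hlow : Dn q y ≠ 0 → L ^ (-e3) ≤ BH.CC q 1 y)
    (hzero : Dn q y = 0 → ∀ W n : ℕ, ((n + W : ℕ) : ℝ) ≤ L ^ (A + 3) → NW q W n = 0)
    (hrz : ∀ t : ℕ, (t : ℝ) ≤ L ^ (A + 3) → (PV q t → (1 - η') * L ≤ Lam (q.eval (t : ℤ)) ∧ Lam (q.eval (t : ℤ)) ≤ (1 + η') * L) ∧
      (¬ PV q t → Lam (q.eval (t : ℤ)) = 0))
    (hcz : ∀ z : ℕ, y ≤ z → (z : ℝ) ≤ L ^ A → |BH.CC q 1 z - BH.CC q 1 y| ≤ η / 2 * BH.CC q 1 y)
    (hgood : ∀ i1 i2 j : ℕ, i1 < M + 2 → i2 < M + 2 → j ≤ d → (gp Yx ε1 i1 : ℝ) ≤ L ^ (A + 1) → (gp Yw ε1 i2 : ℝ) ≤ Λ * L →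
      |∑ n ∈ Icc 1 (gp Yx ε1 i1), ES (fun t => Lam (q.eval (t : ℤ))) (Ioc n (n + gp Yw ε1 i2)) j -
      ∑ n ∈ Icc 1 (gp Yx ε1 i1), ES (fun t => lz y (q.eval (t : ℤ))) (Ioc n (n + gp Yw ε1 i2)) j| ≤
      ε1 * (gp Yx ε1 i1 * (L ^ j * L ^ (-e')))) : PMom H A d ε lam1 lam2 q := by
  classical
  intro x W z hx1 hx2 hW1 hW2 hz1 hz2 j hj
  rw [← hLd] at hx1 hx2 hW1 hW2 hz1 hz2 ⊢
  have hd0 : (0 : ℝ) ≤ d := Nat.cast_nonneg d
  have hL0 : 0 < L := by linarith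
  have hL1 : 1 ≤ L := by linarith
  have hmon : ∀ s t : ℝ, s ≤ t → L ^ s ≤ L ^ t := fun s t h => Real.rpow_le_rpow_of_exponent_le hL1 h
  have hadd : ∀ s t : ℝ, L ^ (s + t) = L ^ s * L ^ t := fun s t => Real.rpow_add hL0 s t
  have hyz : y ≤ z := by exact_mod_cast hyε.trans hz1
  have hczz := hcz z hyz hz2
  have hCy0 := CC_nonneg q 1 y
  have hCz0 := CC_nonneg q 1 z
  have hLA1 : L ^ 2 ≤ L ^ (A + 1) := pow_le_pow_right₀ hL1 (by omega)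
  have hΛL : (Λ : ℝ) * L ≤ L ^ 2 := by rw [sq]; gcongr
  have hsum : ∀ X W' : ℕ, (X : ℝ) ≤ L ^ (A + 1) → (W' : ℝ) ≤ Λ * L → ((X + W' : ℕ) : ℝ) ≤ L ^ (A + 3) := by
    intro X W' h1 h2
    push_cast
    have h3 : L ^ (A + 3) = L ^ (A + 1) * (L * L) := by ring
    have h4 : (2 : ℝ) ≤ L * L := by nlinarith
    have h5 : 0 ≤ L ^ (A + 1) := by positivity
    rw [h3]
    nlinarith
  have hlam2L : lam2 * L ≤ Λ * L := by
    have h1 : lam2 ≤ |lam2| := le_abs_self _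
    have h2 : 0 ≤ |lam2| := abs_nonneg _
    gcongr
    linarith
  -- the case of a fixed divisor
  by_cases hDy : Dn q y = 0
  · have hCy : BH.CC q 1 y = 0 := by unfold BH.CC; rw [hDy, zero_mul]
    have hCz : BH.CC q 1 z = 0 := by
      unfold BH.CC
      rw [le_antisymm ((Dn_anti q hyz).trans hDy.le) (Dn_nonneg q z), zero_mul]
    rw [hCz, mul_zero]
    have hxW := hsum x W (hx2.trans (pow_le_pow_right₀ hL1 (by omega))) (hW2.trans hlam2L)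
    rcases j with _ | j
    · have : (AM q W 0 x : ℝ) = x := by
        unfold AM
        simp
      rw [this]
      simp
      positivity
    · have : AM q W (j + 1) x = 0 := by
        unfold AM
        apply sum_eq_zero
        intro n hn
        rw [mem_Icc] at hn
        have h2 : ((n + W : ℕ) : ℝ) ≤ ((x + W : ℕ) : ℝ) := by exact_mod_cast (by omega : n + W ≤ x + W)
        rw [hzero hDy W n (h2.trans hxW)]
        rfl
      rw [this]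
      simp
  have hCyL := hlow hDy
  have he3p : 0 < L ^ (-e3) := by positivity
  -- one point of the grids
  have hpoint : ∀ i1 i2 : ℕ, i1 < M + 2 → i2 < M + 2 → (gp Yx ε1 i1 : ℝ) ≤ L ^ (A + 1) → (gp Yw ε1 i2 : ℝ) ≤ Λ * L →
      Yx ≤ gp Yx ε1 i1 → Yw ≤ gp Yw ε1 i2 →
      |L ^ j * (AM q (gp Yw ε1 i2) j (gp Yx ε1 i1) : ℝ) - gp Yx ε1 i1 * ((gp Yw ε1 i2 * BH.CC q 1 y) ^ j / (j.factorial : ℝ))| ≤
      η * (gp Yx ε1 i1 * ((gp Yw ε1 i2 * BH.CC q 1 y) ^ j / (j.factorial : ℝ))) := by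
    intro i1 i2 hi1 hi2 hX hW hX' hW'
    have hg := hgood i1 i2 j hi1 hi2 hj hX hW
    obtain ⟨X1, hX1⟩ : ∃ X1, X1 = gp Yx ε1 i1 := ⟨_, rfl⟩
    obtain ⟨V, hV⟩ : ∃ V, V = gp Yw ε1 i2 := ⟨_, rfl⟩
    rw [← hX1, ← hV] at hg ⊢
    rw [← hX1] at hX hX'
    rw [← hV] at hW hW'
    have hVl : L ^ ((7 : ℝ) / 8) ≤ V := hYwl.trans hW'
    have hV0 : (0 : ℝ) < V := lt_of_lt_of_le (by positivity) hVl
    have hX0 : (0 : ℝ) < X1 := lt_of_lt_of_le (by positivity) (hYxl.trans hX')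
    have hX0' : 0 < X1 := by exact_mod_cast hX0
    have hZlow : L ^ ((13 : ℝ) / 16) ≤ V * BH.CC q 1 y := by
      calc L ^ ((13 : ℝ) / 16) ≤ L ^ ((7 : ℝ) / 8 + -e3) := hmon _ _ (by linarith)
        _ = L ^ ((7 : ℝ) / 8) * L ^ (-e3) := hadd _ _
        _ ≤ V * BH.CC q 1 y := by gcongr
    rw [← hε1η]
    apply wpt q d j X1 V y hj L η' ε1 (L ^ j * L ^ (-e')) hL0 hη'0 hε10 (by linarith) hη'ε hX0' (by positivity)
    · intro n
      have hyKV : y ^ K ≤ V := by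
        have h1 : ((y ^ K : ℕ) : ℝ) ≤ V := by
          push_cast
          exact hyK.trans ((hmon _ _ (by norm_num)).trans hVl)
        exact_mod_cast h1
      have h1 := hsv V hyKV (q.comp (X + C (n : ℤ))) (by rw [deg_shift]; exact hqd) V
      have h2 := window_model q n V y (η' / 2) h1
      refine h2.trans ?_
      have h3 : (Vz y)⁻¹ * √(V : ℝ) ≤ η' / 2 * (V * BH.CC q 1 y) := by
        have hs : √(V : ℝ) * √(V : ℝ) = V := Real.mul_self_sqrt hV0.le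
        have hs0 : 0 ≤ √(V : ℝ) := Real.sqrt_nonneg _
        have hs1 : L ^ ((7 : ℝ) / 16) ≤ √(V : ℝ) := by
          apply Real.le_sqrt_of_sq_le
          rw [← Real.rpow_natCast, ← Real.rpow_mul hL0.le]
          have e2 : (7 : ℝ) / 16 * ((2 : ℕ) : ℝ) = 7 / 8 := by push_cast; norm_num
          rw [e2]
          exact hVl
        rw [div_le_iff₀ hη'0] at h9b
        have h4 : 2 * L ^ e3 ≤ η' * (√(V : ℝ) * L ^ (-e3)) := by
          calc 2 * L ^ e3 ≤ (L ^ ((1 : ℝ) / 8) * η') * L ^ e3 := by gcongr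
            _ = η' * L ^ ((1 : ℝ) / 8 + e3) := by rw [hadd]; ring
            _ ≤ η' * L ^ ((7 : ℝ) / 16 + -e3) := by
                apply mul_le_mul_of_nonneg_left _ hη'0.le
                exact hmon _ _ (by linarith)
            _ = η' * (L ^ ((7 : ℝ) / 16) * L ^ (-e3)) := by rw [hadd]
            _ ≤ _ := by gcongr
        calc (Vz y)⁻¹ * √(V : ℝ) ≤ L ^ e3 * √(V : ℝ) := by gcongr
          _ = 1 / 2 * (2 * L ^ e3) * √(V : ℝ) := by ring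
          _ ≤ 1 / 2 * (η' * (√(V : ℝ) * L ^ (-e3))) * √(V : ℝ) := by gcongr
          _ = η' / 2 * ((√(V : ℝ) * √(V : ℝ)) * L ^ (-e3)) := by ring
          _ = η' / 2 * (V * L ^ (-e3)) := by rw [hs]
          _ ≤ _ := by gcongr
      linarith
    · rw [div_le_iff₀ hη'0] at h9c
      have h1 : 1 / 2 ≤ 1 - η' := by linarith
      have h2 : 0 < V * BH.CC q 1 y := lt_of_lt_of_le (by positivity) hZlow
      calc ((d : ℝ) + 1) ^ 2 * (Vz y)⁻¹ ≤ ((d : ℝ) + 1) ^ 2 * L ^ e3 := by gcongr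
        _ = 1 / 2 * (2 * ((d : ℝ) + 1) ^ 2) * L ^ e3 := by ring
        _ ≤ 1 / 2 * (L ^ ((1 : ℝ) / 8) * η') * L ^ e3 := by gcongr
        _ = η' * (1 / 2 * L ^ ((1 : ℝ) / 8 + e3)) := by rw [hadd]; ring
        _ ≤ η' * (1 / 2 * L ^ ((13 : ℝ) / 16)) := by
            have h3 := hmon ((1 : ℝ) / 8 + e3) ((13 : ℝ) / 16) (by linarith)
            gcongr
        _ ≤ η' * (1 / 2 * (V * BH.CC q 1 y)) := by gcongr
        _ ≤ _ := by gcongr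
    · intro n hn t ht
      apply hrz t
      rw [mem_Icc] at hn
      rw [mem_Ioc] at ht
      refine le_trans ?_ (hsum X1 V hX hW)
      exact_mod_cast (by omega : t ≤ X1 + V)
    · exact hg
    · -- the lower bound of the main term
      have hjd : (j : ℝ) ≤ d := by exact_mod_cast hj
      have hm1 : 0 < min lam1 1 := by positivity
      have hV1 : min lam1 1 * L * L ^ (-e3) ≤ V * BH.CC q 1 y := by
        have h1 : min lam1 1 * L ≤ V := by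
          calc min lam1 1 * L ≤ lam1 * L := by gcongr; exact min_le_left _ _
            _ ≤ V := by rw [← hYw]; exact hW'
        gcongr
      have hfac : (j.factorial : ℝ) ≤ (d.factorial : ℝ) := by exact_mod_cast Nat.factorial_le hj
      have hfj : (0 : ℝ) < (j.factorial : ℝ) := by positivity
      rw [div_le_iff₀ hκ20] at h7d
      rw [le_div_iff₀ hfj]
      have h2 : L ^ (-e') * L ^ (e3 / 2) ≤ (L ^ (-e3)) ^ j := by
        rw [← Real.rpow_natCast, ← Real.rpow_mul hL0.le, ← hadd]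
        apply hmon
        have : (j : ℝ) * e3 ≤ d * e3 := by gcongr
        linarith
      have h3 : κ2 * (j.factorial : ℝ) ≤ (min lam1 1) ^ j := by
        rw [hκ2d, div_mul_eq_mul_div, div_le_iff₀ (by positivity)]
        apply mul_le_mul _ hfac (by positivity) (by positivity)
        exact pow_le_pow_of_le_one hm1.le (min_le_right _ _) hj
      calc L ^ j * L ^ (-e') * (j.factorial : ℝ) = L ^ j * L ^ (-e') * 1 * (j.factorial : ℝ) := by ring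
        _ ≤ L ^ j * L ^ (-e') * (L ^ (e3 / 2) * κ2) * (j.factorial : ℝ) := by gcongr
        _ = L ^ j * (L ^ (-e') * L ^ (e3 / 2)) * (κ2 * (j.factorial : ℝ)) := by ring
        _ ≤ L ^ j * (L ^ (-e3)) ^ j * (min lam1 1) ^ j := by gcongr
        _ = (min lam1 1 * L * L ^ (-e3)) ^ j := by rw [mul_pow, mul_pow]; ring
        _ ≤ _ := pow_le_pow_left₀ (by positivity) hV1 j
  -- the neighbours in the grids
  have hYx1 : 1 ≤ Yx := (Real.one_le_rpow hL1 (by norm_num)).trans hYxl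
  have hYw1 : 1 ≤ Yw := (Real.one_le_rpow hL1 (by norm_num)).trans hYwl
  have hYε : ∀ Y : ℝ, L ^ ((7 : ℝ) / 8) ≤ Y → 1 ≤ Y * ε1 := by
    intro Y hY
    rw [div_le_iff₀ hε10] at h9d
    calc (1 : ℝ) ≤ L ^ ((1 : ℝ) / 8) * ε1 := h9d
      _ ≤ L ^ ((7 : ℝ) / 8) * ε1 := by
          apply mul_le_mul_of_nonneg_right (hmon _ _ (by norm_num)) hε10.le
      _ ≤ Y * ε1 := by gcongr
  obtain ⟨i1, ha1, ha2, ha3, ha4, ha5⟩ := gp_grid Yx ε1 hYx1 hε10 (hYε _ hYxl) x (by rw [hYx]; exact hx1)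
  obtain ⟨i2, hb1, hb2, hb3, hb4, hb5⟩ := gp_grid Yw ε1 hYw1 hε10 (hYε _ hYwl) W (by rw [hYw]; exact hW1)
  have hgx : ∀ i, Yx ≤ gp Yx ε1 i := by
    intro i
    refine le_trans ?_ (Nat.le_ceil _)
    exact aux4 (by linarith) (one_le_pow₀ (by linarith))
  have hgw : ∀ i, Yw ≤ gp Yw ε1 i := by
    intro i
    refine le_trans ?_ (Nat.le_ceil _)
    exact aux4 (by linarith) (one_le_pow₀ (by linarith))
  have hi1 : i1 ≤ M := hM2 i1 (ha4.trans (hx2.trans (pow_le_pow_right₀ hL1 (by omega))))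
  have hi2 : i2 ≤ M := hM2 i2 (hb4.trans ((hW2.trans hlam2L).trans (hΛL.trans (pow_le_pow_right₀ hL1 (by omega)))))
  have hgx1 : (gp Yx ε1 i1 : ℝ) ≤ x := by exact_mod_cast ha1
  have hgw1 : (gp Yw ε1 i2 : ℝ) ≤ W := by exact_mod_cast hb1
  have hgx2 : (gp Yx ε1 (i1 + 1) : ℝ) ≤ L ^ (A + 1) := by
    calc (gp Yx ε1 (i1 + 1) : ℝ) ≤ (1 + 2 * ε1) * gp Yx ε1 i1 := ha3
      _ ≤ L * L ^ A := by
          apply mul_le_mul (by linarith) (hgx1.trans hx2) (Nat.cast_nonneg _) hL0.le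
      _ = L ^ (A + 1) := by rw [pow_succ]; ring
  have hgw2 : (gp Yw ε1 (i2 + 1) : ℝ) ≤ Λ * L := by
    have hl2 : 0 ≤ |lam2| := abs_nonneg _
    calc (gp Yw ε1 (i2 + 1) : ℝ) ≤ (1 + 2 * ε1) * gp Yw ε1 i2 := hb3
      _ ≤ 2 * (|lam2| * L) := by
          apply mul_le_mul (by linarith) _ (Nat.cast_nonneg _) (by norm_num)
          refine (hgw1.trans hW2).trans ?_
          have h1 : lam2 ≤ |lam2| := le_abs_self _
          gcongr
      _ = (2 * |lam2|) * L := by ring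
      _ ≤ Λ * L := by gcongr
  have hp1 := hpoint i1 i2 (by omega) (by omega) ((hgx1.trans hx2).trans (pow_le_pow_right₀ hL1 (by omega)))
    (hgw1.trans (hW2.trans hlam2L)) (hgx _) (hgw _)
  have hp2 := hpoint (i1 + 1) (i2 + 1) (by omega) (by omega) hgx2 hgw2 (hgx _) (hgw _)
  have hm1 : L ^ j * (AM q (gp Yw ε1 i2) j (gp Yx ε1 i1) : ℝ) ≤ L ^ j * (AM q W j x : ℝ) := by
    apply mul_le_mul_of_nonneg_left _ (by positivity)
    exact_mod_cast AM_mono q hb1 ha1 j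
  have hm2 : L ^ j * (AM q W j x : ℝ) ≤ L ^ j * (AM q (gp Yw ε1 (i2 + 1)) j (gp Yx ε1 (i1 + 1)) : ℝ) := by
    apply mul_le_mul_of_nonneg_left _ (by positivity)
    exact_mod_cast AM_mono q hb2 ha2 j
  have hfin := num5 (L ^ j * (AM q W j x : ℝ)) _ _ x _ _ W _ _ (BH.CC q 1 y) (BH.CC q 1 z) (j.factorial : ℝ) η εm j d hj hη0 hεm0 hεm1
    hηε (by positivity) (Nat.cast_nonneg _) (Nat.cast_nonneg _) hCy0 hCz0 hm1 hm2 hgx1 (by exact_mod_cast ha2)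
    (ha3.trans (by gcongr; linarith)) hgw1 (by exact_mod_cast hb2) (hb3.trans (by gcongr; linarith)) hp1 hp2 hczz
  refine hfin.trans ?_
  apply mul_le_mul_of_nonneg_right hεmε
  positivity

end Pool.Agent.T9h23.PS
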