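import Mathlib
import Pool.Agent.T9h23.PS.P5

/-! The moments of the number of the prime values in short windows: the count of the exceptional polynomials. -/

set_option autoImplicit false

namespace Pool.Agent.T9h23.PS
open Finset Polynomial
open Pool.Agent.H373R2.T7
open Pool.Agent.T9h23.Cor
open Pool.Agent.T9h23.BH

lemma bux1 {a b c : ℝ} (h2 : 2 ≤ a) (h : a * a ≤ c) (h3 : c ≤ 2 * b) : a ≤ b := by nlinarith
lemma bux2 {d ε1 e : ℝ} (hd : 0 ≤ d) (he : 0 < e) (h : e = ε1 / (2 * (d + 2))) (hε1 : ε1 ≤ 1 / 20) : e ≤ 1 / 80 := by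
  have h2 : e * (2 * (d + 2)) = ε1 := by rw [h]; field_simp
  nlinarith
lemma bux3 {d e εm : ℝ} (hd : 0 ≤ d) (he : 0 < e) (h : 2 * (2 * d + 3) * e ≤ εm) (h1 : εm ≤ 1) : e ≤ 1 / 6 := by nlinarith

/-- the count of the exceptional polynomials -/
lemma cnt (N L e' e3 δ y Ic d ε1 M : ℝ) (A : ℕ) (hN : 0 < N) (hL : 3 ≤ L) (hd : 0 ≤ d) (hε1 : 0 < ε1) (hδ0 : 0 < δ) (hδ1 : δ ≤ 1)
    (he' : e' = δ / 16) (he3 : 0 < e3) (he3e : e3 ≤ e') (hy : L ^ δ ≤ 2 * y) (hy0 : 0 < y) (hM0 : 0 ≤ M) (hM : M + 2 ≤ L ^ e')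
    (hIc : Ic ≤ (M + 2) * ((M + 2) * (d + 1))) (h7 : 3 * (d + 1) / ε1 ^ 2 ≤ L ^ (e3 / 2)) (h7a : 2 ≤ L ^ (e3 / 2)) :
    N / L ^ (A + 3) + N * (L ^ e' / y) + Ic * (N * ((3 / ε1 ^ 2) * L ^ (3 * e') * L ^ (-δ))) ≤ N / L ^ (δ / 4) := by
  have hL0 : 0 < L := by linarith
  have hL1 : 1 ≤ L := by linarith
  have hmon : ∀ s t : ℝ, s ≤ t → L ^ s ≤ L ^ t := fun s t h => Real.rpow_le_rpow_of_exponent_le hL1 h
  have hadd : ∀ s t : ℝ, L ^ (s + t) = L ^ s * L ^ t := fun s t => Real.rpow_add hL0 s t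
  obtain ⟨Q, hQ⟩ : ∃ Q : ℝ, Q = L ^ (-(10 * δ / 16)) := ⟨_, rfl⟩
  have hQ0 : 0 < Q := by rw [hQ]; positivity
  have t1 : N / L ^ (A + 3) ≤ N * Q := by
    rw [div_eq_mul_inv]
    apply mul_le_mul_of_nonneg_left _ hN.le
    have h1 : (L ^ (A + 3))⁻¹ ≤ L⁻¹ := by
      apply inv_anti₀ hL0
      exact le_self_pow₀ hL1 (by omega)
    refine h1.trans ?_
    rw [hQ, ← Real.rpow_neg_one]
    exact hmon _ _ (by linarith)
  have t2 : N * (L ^ e' / y) ≤ N * Q := by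
    apply mul_le_mul_of_nonneg_left _ hN.le
    rw [div_le_iff₀ hy0]
    have h2 : (2 : ℝ) ≤ L ^ e' := h7a.trans (hmon _ _ (by linarith))
    have h3 : L ^ (2 * e' - δ) ≤ Q := by rw [hQ]; exact hmon _ _ (by linarith)
    have h4 : L ^ e' * L ^ e' = L ^ (2 * e' - δ) * L ^ δ := by
      rw [← hadd, ← hadd]; congr 1; ring
    have h5 : 0 < L ^ e' := by positivity
    calc L ^ e' = 1 / 2 * (L ^ e' * 2) := by ring
      _ ≤ 1 / 2 * (L ^ e' * L ^ e') := by gcongr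
      _ = 1 / 2 * (L ^ (2 * e' - δ) * L ^ δ) := by rw [h4]
      _ ≤ 1 / 2 * (Q * (2 * y)) := by gcongr
      _ = Q * y := by ring
  have t3 : Ic * (N * ((3 / ε1 ^ 2) * L ^ (3 * e') * L ^ (-δ))) ≤ N * Q := by
    have h1 : Ic ≤ L ^ e' * (L ^ e' * (d + 1)) := hIc.trans (by gcongr)
    have h2 : 3 * (d + 1) / ε1 ^ 2 ≤ L ^ e' := h7.trans (hmon _ _ (by linarith))
    have h3 : L ^ e' * L ^ e' * L ^ e' * L ^ (3 * e') * L ^ (-δ) = Q := by
      rw [hQ, ← hadd, ← hadd, ← hadd, ← hadd]; congr 1; rw [he']; ring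
    calc Ic * (N * ((3 / ε1 ^ 2) * L ^ (3 * e') * L ^ (-δ))) ≤ (L ^ e' * (L ^ e' * (d + 1))) * (N * ((3 / ε1 ^ 2) * L ^ (3 * e') * L ^ (-δ))) := by gcongr
      _ = N * (L ^ e' * L ^ e' * (3 * (d + 1) / ε1 ^ 2) * L ^ (3 * e') * L ^ (-δ)) := by ring
      _ ≤ N * (L ^ e' * L ^ e' * L ^ e' * L ^ (3 * e') * L ^ (-δ)) := by gcongr
      _ = N * Q := by rw [h3]
  have t4 : 3 * Q ≤ L ^ (-(δ / 4)) := by
    have h1 : 3 ≤ L ^ (6 * δ / 16) := by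
      have h2 : L ^ (e3 / 2) * L ^ (e3 / 2) = L ^ e3 := by rw [← hadd]; congr 1; ring
      have h3 : L ^ e3 ≤ L ^ (6 * δ / 16) := hmon _ _ (by linarith)
      nlinarith
    calc 3 * Q ≤ L ^ (6 * δ / 16) * Q := by gcongr
      _ = L ^ (-(δ / 4)) := by rw [hQ, ← hadd]; congr 1; ring
  have e1 : N / L ^ (δ / 4) = N * L ^ (-(δ / 4)) := by rw [Real.rpow_neg hL0.le, div_eq_mul_inv]
  rw [e1]
  nlinarith [mul_le_mul_of_nonneg_left t4 hN.le]


theorem pmom_aux (d D : ℕ) (hd : 1 ≤ d) (hD : 1 ≤ D) (ε lam1 lam2 : ℝ) (hε : 0 < ε) (hlam1 : 0 < lam1) : ∃ c : ℝ, 0 < c ∧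
    ∀ A : ℕ, 1 ≤ A → ∃ H0 : ℕ, ∀ H : ℕ, H0 ≤ H → ∀ P : ℤ[X], P.natDegree ≤ D → (∀ i, |(P.coeff i : ℝ)| ≤ H * Real.log H ^ A) →
    (open Classical in (((Om (D1 d) H).filter (fun f => ¬ PMom H A d ε lam1 lam2 (hpol P (f 0)))).card : ℝ)) ≤
      NN (D1 d) H / Real.log H ^ c := by
  classical
  have hd0 : (0 : ℝ) ≤ d := Nat.cast_nonneg d
  obtain ⟨εm, hεmd⟩ : ∃ εm : ℝ, εm = min ε 1 := ⟨_, rfl⟩
  have hεm0 : 0 < εm := by rw [hεmd]; positivity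
  have hεm1 : εm ≤ 1 := by rw [hεmd]; exact min_le_right _ _
  have hεmε : εm ≤ ε := by rw [hεmd]; exact min_le_left _ _
  obtain ⟨η, hηd⟩ : ∃ η : ℝ, η = εm / (2 * (2 * (d : ℝ) + 3)) := ⟨_, rfl⟩
  have hη0 : 0 < η := by rw [hηd]; positivity
  have hηε : 2 * (2 * (d : ℝ) + 3) * η ≤ εm := le_of_eq (by rw [hηd]; field_simp)
  have hη6 : η ≤ 1 / 6 := bux3 hd0 hη0 hηε hεm1
  obtain ⟨ε1, hε1d⟩ : ∃ ε1 : ℝ, ε1 = η / 10 := ⟨_, rfl⟩
  have hε10 : 0 < ε1 := by rw [hε1d]; positivity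
  have hε1η : 10 * ε1 = η := by rw [hε1d]; ring
  have hε120 : ε1 ≤ 1 / 20 := by linarith
  obtain ⟨η', hη'd⟩ : ∃ η' : ℝ, η' = ε1 / (2 * ((d : ℝ) + 2)) := ⟨_, rfl⟩
  have hη'0 : 0 < η' := by rw [hη'd]; positivity
  have hη'ε : 2 * ((d : ℝ) + 2) * η' ≤ ε1 := le_of_eq (by rw [hη'd]; field_simp)
  have hη'1 : η' ≤ 1 / 80 := bux2 hd0 hη'0 hη'd hε120
  obtain ⟨cd, hcd⟩ : ∃ cd, cd = D + d := ⟨_, rfl⟩
  have hcd1 : 1 ≤ cd := by omega
  have hcd0 : (0 : ℝ) < cd := by exact_mod_cast hcd1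
  obtain ⟨K, y0, hK, hsv⟩ := sieve_poly cd (η' / 2) (by positivity)
  obtain ⟨κ, hκ0, hDl⟩ := Dn_lower cd hcd1
  have hKr : (1 : ℝ) ≤ K := by exact_mod_cast hK
  obtain ⟨δ, hδd⟩ : ∃ δ : ℝ, δ = min εm (1 / (2 * K)) := ⟨_, rfl⟩
  have hδ0 : 0 < δ := by rw [hδd]; positivity
  have hδε : δ ≤ εm := by rw [hδd]; exact min_le_left _ _
  have hδ1 : δ ≤ 1 := hδε.trans hεm1
  have hδK : δ * K ≤ 1 / 2 := by
    have h1 : δ ≤ 1 / (2 * K) := by rw [hδd]; exact min_le_right _ _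
    calc δ * K ≤ 1 / (2 * K) * K := by gcongr
      _ = 1 / 2 := by field_simp
  obtain ⟨e', he'd⟩ : ∃ e' : ℝ, e' = δ / 16 := ⟨_, rfl⟩
  have he'0 : 0 < e' := by rw [he'd]; positivity
  obtain ⟨e3, he3d⟩ : ∃ e3 : ℝ, e3 = e' / (d + 1) := ⟨_, rfl⟩
  have he30 : 0 < e3 := by rw [he3d]; positivity
  have he3e : e3 ≤ e' := by rw [he3d]; exact div_le_self he'0.le (by linarith)
  have he3e2 : (d : ℝ) * e3 + e3 = e' := by rw [he3d]; field_simp
  obtain ⟨κ2, hκ2d⟩ : ∃ κ2 : ℝ, κ2 = (min lam1 1) ^ d / (d.factorial : ℝ) := ⟨_, rfl⟩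
  have hκ20 : 0 < κ2 := by rw [hκ2d]; positivity
  obtain ⟨Λ, hΛd⟩ : ∃ Λ : ℕ, Λ = ⌈2 * |lam2|⌉₊ + 2 := ⟨_, rfl⟩
  have hΛ2 : 2 ≤ Λ := by omega
  have hΛl : 2 * |lam2| ≤ Λ := by
    rw [hΛd]
    push_cast
    have := Nat.le_ceil (2 * |lam2|)
    linarith
  refine ⟨δ / 4, by positivity, fun A hA => ?_⟩
  obtain ⟨A', n0, hpts⟩ := pts D A (A + 3)
  obtain ⟨C, n1, htame⟩ := tame_card 1 (D1 d) D A A' (A + 3)
  obtain ⟨n2, hrz⟩ := range_zero 1 (D1 d) A' A' C η' hη'0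
  obtain ⟨n3, hCZ⟩ := CZ 1 (D1 d) D A (fun _ => hd) (η / 2) (δ / 2) e' (by positivity) (by positivity) he'0
  obtain ⟨n4, hSM⟩ := SMW d D A (A + 3) Λ hd hD hΛ2 (δ / 2) e' (by positivity) he'0
  obtain ⟨n5, hgl⟩ := grid_len (A + 2) ε1 e' hε10 he'0
  obtain ⟨n6, hL6⟩ := ev_L' (max 3 Λ)
  obtain ⟨n7, hL7⟩ := ev_rpow (max (max (2 * (y0 + 1)) (3 * (d + 1) / ε1 ^ 2)) (max (1 / κ) (1 / κ2))) (e3 / 2) (by positivity)
  obtain ⟨n8, hV8⟩ := Vz_small 1 (e3 / (4 * cd)) (by positivity)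
  obtain ⟨n9, hL9⟩ := ev_rpow (max (1 / lam1) (max (2 / η') (max (2 * ((d : ℝ) + 1) ^ 2 / η') (1 / ε1)))) (1 / 8) (by norm_num)
  obtain ⟨n10, hL10⟩ := ev_log' (A + C + 3) 1
  refine ⟨max (max (max (max n0 n1) (max n2 n3)) (max (max n4 n5) (max n6 n7))) (max (max n8 n9) (max n10 4)),
    fun H hH P hP1 hP2 => ?_⟩
  have hn0 : n0 ≤ H := ((((le_max_left _ _).trans (le_max_left _ _)).trans (le_max_left _ _)).trans (le_max_left _ _)).trans hH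
  have hn1 : n1 ≤ H := ((((le_max_right _ _).trans (le_max_left _ _)).trans (le_max_left _ _)).trans (le_max_left _ _)).trans hH
  have hn2 : n2 ≤ H := ((((le_max_left _ _).trans (le_max_right _ _)).trans (le_max_left _ _)).trans (le_max_left _ _)).trans hH
  have hn3 : n3 ≤ H := ((((le_max_right _ _).trans (le_max_right _ _)).trans (le_max_left _ _)).trans (le_max_left _ _)).trans hH
  have hn4 : n4 ≤ H := ((((le_max_left _ _).trans (le_max_left _ _)).trans (le_max_right _ _)).trans (le_max_left _ _)).trans hH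
  have hn5 : n5 ≤ H := ((((le_max_right _ _).trans (le_max_left _ _)).trans (le_max_right _ _)).trans (le_max_left _ _)).trans hH
  have hn6 : n6 ≤ H := ((((le_max_left _ _).trans (le_max_right _ _)).trans (le_max_right _ _)).trans (le_max_left _ _)).trans hH
  have hn7 : n7 ≤ H := ((((le_max_right _ _).trans (le_max_right _ _)).trans (le_max_right _ _)).trans (le_max_left _ _)).trans hH
  have hn8 : n8 ≤ H := (((le_max_left _ _).trans (le_max_left _ _)).trans (le_max_right _ _)).trans hH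
  have hn9 : n9 ≤ H := (((le_max_right _ _).trans (le_max_left _ _)).trans (le_max_right _ _)).trans hH
  have hn10 : n10 ≤ H := (((le_max_left _ _).trans (le_max_right _ _)).trans (le_max_right _ _)).trans hH
  have hH4 : 4 ≤ H := (((le_max_right _ _).trans (le_max_right _ _)).trans (le_max_right _ _)).trans hH
  have hHr : (4 : ℝ) ≤ H := by exact_mod_cast hH4
  have hH0 : (0 : ℝ) < H := by linarith
  have a6 := hL6 H hn6
  have a7 := hL7 H hn7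
  have a9 := hL9 H hn9
  have a10 := hL10 H hn10
  obtain ⟨M, hM1, hM2⟩ := hgl H hn5
  obtain ⟨T0, hT0, hT⟩ := hpts H hn0
  have hL3' : (3 : ℝ) ≤ Real.log H := (le_max_left _ _).trans a6
  have hSmall : Small H A D (fun _ : Fin 1 => P) GX := GX_small hP1 hP2 (by linarith)
  obtain ⟨hPv, hpt⟩ := hT 1 (D1 d) (fun _ => P) GX (GX_ok hd hD) hSmall
  have htm := htame H hn1 (fun _ => P) (fun _ => hP1) (fun _ => hP2)
  obtain ⟨L, hLd⟩ : ∃ L, L = Real.log H := ⟨_, rfl⟩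
  rw [← hLd] at a6 a7 a9 a10 hM1 hM2 hT0 hpt hPv htm hL3' ⊢
  have hL3 := hL3'
  have hLΛ : (Λ : ℝ) ≤ L := (le_max_right _ _).trans a6
  have hL0 : 0 < L := by linarith
  have hL1 : 1 ≤ L := by linarith
  have hNN := NN_pos (D1 d) H
  have h7a : 2 * ((y0 : ℝ) + 1) ≤ L ^ (e3 / 2) := ((le_max_left _ _).trans (le_max_left _ _)).trans a7
  have h7b : 3 * ((d : ℝ) + 1) / ε1 ^ 2 ≤ L ^ (e3 / 2) := ((le_max_right _ _).trans (le_max_left _ _)).trans a7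
  have h7c : 1 / κ ≤ L ^ (e3 / 2) := ((le_max_left _ _).trans (le_max_right _ _)).trans a7
  have h7d : 1 / κ2 ≤ L ^ (e3 / 2) := ((le_max_right _ _).trans (le_max_right _ _)).trans a7
  have h9a : 1 / lam1 ≤ L ^ ((1 : ℝ) / 8) := (le_max_left _ _).trans a9
  have h9b : 2 / η' ≤ L ^ ((1 : ℝ) / 8) := ((le_max_left _ _).trans (le_max_right _ _)).trans a9
  have h9c : 2 * ((d : ℝ) + 1) ^ 2 / η' ≤ L ^ ((1 : ℝ) / 8) := (((le_max_left _ _).trans (le_max_right _ _)).trans (le_max_right _ _)).trans a9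
  have h9d : 1 / ε1 ≤ L ^ ((1 : ℝ) / 8) := (((le_max_right _ _).trans (le_max_right _ _)).trans (le_max_right _ _)).trans a9
  have hmon : ∀ s t : ℝ, s ≤ t → L ^ s ≤ L ^ t := fun s t h => Real.rpow_le_rpow_of_exponent_le hL1 h
  -- `y`
  obtain ⟨y, hyd⟩ : ∃ y : ℕ, y = ⌊L ^ δ⌋₊ := ⟨_, rfl⟩
  have hya : (y : ℝ) ≤ L ^ δ := by rw [hyd]; exact Nat.floor_le (by positivity)
  have hyb : L ^ δ ≤ 2 * y := by
    have h1 : L ^ δ < y + 1 := by rw [hyd]; exact Nat.lt_floor_add_one _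
    have h2 : 1 ≤ y := by rw [hyd]; exact Nat.le_floor (by exact_mod_cast Real.one_le_rpow hL1 hδ0.le)
    have h3 : (1 : ℝ) ≤ y := by exact_mod_cast h2
    linarith
  have hyL : L ^ (δ / 2) ≤ y := by
    have h1 : L ^ (δ / 2) * L ^ (δ / 2) = L ^ δ := by rw [← Real.rpow_add hL0]; congr 1; ring
    have h2 : 2 ≤ L ^ (δ / 2) := by
      refine le_trans ?_ (hmon (e3 / 2) (δ / 2) (by linarith))
      have h3 : (0 : ℝ) ≤ y0 := Nat.cast_nonneg _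
      linarith
    exact bux1 h2 h1.le hyb
  have hyy0 : y0 ≤ y := by
    have h1 : (y0 : ℝ) ≤ y := by
      have h2 : L ^ (e3 / 2) ≤ L ^ (δ / 2) := hmon _ _ (by linarith)
      have h3 : (0 : ℝ) ≤ y0 := Nat.cast_nonneg _
      linarith
    exact_mod_cast h1
  have hy1r : (1 : ℝ) ≤ y := (Real.one_le_rpow hL1 (by positivity)).trans hyL
  have hy1 : 1 ≤ y := by exact_mod_cast hy1r
  have hyL1 : (y : ℝ) ≤ L := hya.trans ((hmon δ 1 hδ1).trans (le_of_eq (Real.rpow_one L)))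
  have hLA : L ≤ L ^ A := le_self_pow₀ hL1 (by omega)
  have hyA : (y : ℝ) ≤ L ^ A := hyL1.trans hLA
  have hyK : ((y : ℝ)) ^ K ≤ L ^ ((1 : ℝ) / 2) := by
    calc (y : ℝ) ^ K ≤ (L ^ δ) ^ K := pow_le_pow_left₀ (by linarith) hya K
      _ = L ^ (δ * K) := by rw [Real.rpow_mul hL0.le, Real.rpow_natCast]
      _ ≤ L ^ ((1 : ℝ) / 2) := hmon _ _ hδK
  -- the windows are long
  have hWl : ∀ W : ℕ, lam1 * L ≤ W → L ^ ((7 : ℝ) / 8) ≤ W := by
    intro W hW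
    rw [div_le_iff₀ hlam1] at h9a
    have e1 : L ^ ((7 : ℝ) / 8) * L ^ ((1 : ℝ) / 8) = L := by
      rw [← Real.rpow_add hL0]
      norm_num
    calc L ^ ((7 : ℝ) / 8) = L ^ ((7 : ℝ) / 8) * 1 := by ring
      _ ≤ L ^ ((7 : ℝ) / 8) * (L ^ ((1 : ℝ) / 8) * lam1) := by gcongr
      _ = (L ^ ((7 : ℝ) / 8) * L ^ ((1 : ℝ) / 8)) * lam1 := by ring
      _ = lam1 * L := by rw [e1, mul_comm]
      _ ≤ W := hW
  -- the product of the sieve
  have hVyb := hV8 H hn8 y hy1 (by rw [← hLd, pow_one]; exact hyL1)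
  rw [← hLd] at hVyb
  have hVy1 : 1 ≤ (Vz y)⁻¹ := (one_le_inv₀ (Vz_pos _)).2 (Vz_le_one y)
  have hVpow : (Vz y)⁻¹ ^ (2 * cd) ≤ L ^ (e3 / 2) := by
    calc (Vz y)⁻¹ ^ (2 * cd) ≤ (L ^ (e3 / (4 * cd))) ^ (2 * cd) := pow_le_pow_left₀ (by linarith) hVyb _
      _ = L ^ (e3 / 2) := by
          rw [← Real.rpow_natCast, ← Real.rpow_mul hL0.le]
          congr 1
          push_cast
          field_simp
          norm_num
  have hVy : (Vz y)⁻¹ ≤ L ^ e3 := by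
    refine le_trans ?_ (hVpow.trans (hmon _ _ (by linarith)))
    exact le_self_pow₀ hVy1 (by omega)
  -- the bad sets
  obtain ⟨S, hSd⟩ : ∃ S : ℕ → ℕ → ℕ → ((j : Fin 1) → (Fin (D1 d j + 1) → ℤ)) → ℝ, S = fun j W X f =>
    ∑ τ ∈ WI j W X, (MM Lam (fun _ t => P.eval t) f (WT τ) - MM (lz y) (fun _ t => P.eval t) f (WT τ)) := ⟨_, rfl⟩
  have hbadX : ∀ j ≤ d, ∀ W X : ℕ, (W : ℝ) ≤ Λ * L → L ^ (1 + ε) ≤ X → (X : ℝ) ≤ L ^ (A + 1) →
      (((Om (D1 d) H).filter (fun f => ε1 * (X * (L ^ j * L ^ (-e'))) < |S j W X f|)).card : ℝ) ≤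
        NN (D1 d) H * ((3 / ε1 ^ 2) * L ^ (3 * e') * L ^ (-δ)) := by
    intro j hj W X hW hX1 hX2
    have hX0 : (0 : ℝ) < X := lt_of_lt_of_le (by positivity) hX1
    have hXW : ((X + W : ℕ) : ℝ) ≤ L ^ (A + 3) := by
      push_cast
      have h1 : (Λ : ℝ) * L ≤ L * L := by gcongr
      have h2 : L * L ≤ L ^ (A + 1) := by
        calc L * L = L ^ 2 := by ring
          _ ≤ _ := pow_le_pow_right₀ hL1 (by omega)
      have h3 : L ^ (A + 3) = L ^ (A + 1) * (L * L) := by ring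
      have h4 : (2 : ℝ) ≤ L * L := by nlinarith
      have h5 : 0 ≤ L ^ (A + 1) := by positivity
      rw [h3]
      nlinarith
    have hm := hSM H hn4 y (by rw [← hLd]; exact hyL) (by rw [← hLd]; exact hyA.trans (pow_le_pow_right₀ hL1 (by omega))) P hP1 hP2 j hj W X
      (by rw [← hLd]; exact hW) (by rw [← hLd]; exact hXW) Lam (Or.inl rfl)
    rw [← hLd] at hm
    have hm' : ∑ f ∈ Om (D1 d) H, S j W X f ^ 2 ≤ NN (D1 d) H * (L ^ e' * (((X : ℝ) * L ^ j) ^ 2 / y + X * L ^ (2 * j + 1))) := by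
      rw [hSd]; exact hm
    refine (cheb (Om (D1 d) H) (S j W X) _ (ε1 * (X * (L ^ j * L ^ (-e')))) (by positivity) hm').trans ?_
    rw [div_le_iff₀ (by positivity)]
    have h1 : ((X : ℝ) * L ^ j) ^ 2 / y ≤ (X * L ^ j) ^ 2 * (2 * L ^ (-δ)) := by
      rw [div_eq_mul_inv]
      apply mul_le_mul_of_nonneg_left _ (by positivity)
      have h2 : ((y : ℝ))⁻¹ ≤ 2 * (L ^ δ)⁻¹ := by
        rw [← div_eq_mul_inv, le_div_iff₀ (by positivity), inv_mul_le_iff₀ (by linarith)]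
        linarith
      rwa [← Real.rpow_neg hL0.le] at h2
    have h2 : (X : ℝ) * L ^ (2 * j + 1) ≤ (X * L ^ j) ^ 2 * L ^ (-δ) := by
      have h3 : L ≤ X * L ^ (-δ) := by
        calc L = L ^ (1 + δ) * L ^ (-δ) := by rw [← Real.rpow_add hL0]; simp
          _ ≤ L ^ (1 + ε) * L ^ (-δ) := by
              apply mul_le_mul_of_nonneg_right (hmon _ _ (by linarith)) (by positivity)
          _ ≤ X * L ^ (-δ) := by gcongr
      calc (X : ℝ) * L ^ (2 * j + 1) = (X * L ^ (2 * j)) * L := by rw [pow_succ]; ring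
        _ ≤ (X * L ^ (2 * j)) * (X * L ^ (-δ)) := by gcongr
        _ = _ := by rw [mul_comm 2 j, pow_mul]; ring
    have h11 : (L ^ (-e')) ^ 2 * L ^ (2 * e') = 1 := by
      rw [← Real.rpow_natCast, ← Real.rpow_mul hL0.le, ← Real.rpow_add hL0]
      have : -e' * ((2 : ℕ) : ℝ) + 2 * e' = 0 := by push_cast; ring
      rw [this, Real.rpow_zero]
    have h12 : L ^ e' * L ^ (2 * e') = L ^ (3 * e') := by rw [← Real.rpow_add hL0]; congr 1; ring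
    calc NN (D1 d) H * (L ^ e' * (((X : ℝ) * L ^ j) ^ 2 / y + X * L ^ (2 * j + 1)))
        ≤ NN (D1 d) H * (L ^ e' * ((X * L ^ j) ^ 2 * (2 * L ^ (-δ)) + (X * L ^ j) ^ 2 * L ^ (-δ))) := by gcongr
      _ = NN (D1 d) H * ((3 / ε1 ^ 2) * L ^ e' * L ^ (-δ)) * (ε1 ^ 2 * (X * L ^ j) ^ 2) * ((L ^ (-e')) ^ 2 * L ^ (2 * e')) := by
          rw [h11]
          field_simp
          ring
      _ = NN (D1 d) H * ((3 / ε1 ^ 2) * (L ^ e' * L ^ (2 * e')) * L ^ (-δ)) * (ε1 * (X * (L ^ j * L ^ (-e')))) ^ 2 := by ring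
      _ = _ := by rw [h12]
  obtain ⟨Yx, hYx⟩ : ∃ Yx : ℝ, Yx = L ^ (1 + ε) := ⟨_, rfl⟩
  obtain ⟨Yw, hYw⟩ : ∃ Yw : ℝ, Yw = lam1 * L := ⟨_, rfl⟩
  have hYwl : L ^ ((7 : ℝ) / 8) ≤ Yw := by
    rw [div_le_iff₀ hlam1] at h9a
    have e1 : L ^ ((7 : ℝ) / 8) * L ^ ((1 : ℝ) / 8) = L := by
      rw [← Real.rpow_add hL0]
      norm_num
    calc L ^ ((7 : ℝ) / 8) = L ^ ((7 : ℝ) / 8) * 1 := by ring
      _ ≤ L ^ ((7 : ℝ) / 8) * (L ^ ((1 : ℝ) / 8) * lam1) := by gcongr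
      _ = (L ^ ((7 : ℝ) / 8) * L ^ ((1 : ℝ) / 8)) * lam1 := by ring
      _ = Yw := by rw [e1, mul_comm, hYw]
  have hYxl : L ^ ((7 : ℝ) / 8) ≤ Yx := by rw [hYx]; exact hmon _ _ (by linarith)
  obtain ⟨I, hI⟩ : ∃ I : Finset (ℕ × ℕ × ℕ), I = (range (M + 2) ×ˢ range (M + 2) ×ˢ range (d + 1)).filter
    (fun i => (gp Yx ε1 i.1 : ℝ) ≤ L ^ (A + 1) ∧ (gp Yw ε1 i.2.1 : ℝ) ≤ Λ * L) := ⟨_, rfl⟩
  have hgpx : ∀ i, Yx ≤ gp Yx ε1 i := by
    intro i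
    refine le_trans ?_ (Nat.le_ceil _)
    exact aux4 (by rw [hYx]; positivity) (one_le_pow₀ (by linarith))
  have hgpw : ∀ i, Yw ≤ gp Yw ε1 i := by
    intro i
    refine le_trans ?_ (Nat.le_ceil _)
    exact aux4 (by rw [hYw]; positivity) (one_le_pow₀ (by linarith))
  have hsub : (Om (D1 d) H).filter (fun f => ¬ PMom H A d ε lam1 lam2 (hpol P (f 0))) ⊆
      ((Om (D1 d) H).filter (fun f => ¬ Tame H A' C (fun _ => P) f) ∪
      (Om (D1 d) H).filter (fun f => ¬ ∀ z : ℕ, y ≤ z → (z : ℝ) ≤ Real.log H ^ A →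
        |BH.CC (qq GX (fun _ => P) f) (kk GX) z - BH.CC (qq GX (fun _ => P) f) (kk GX) y| ≤ η / 2 * BH.CC (qq GX (fun _ => P) f) (kk GX) y)) ∪
      I.biUnion (fun i => (Om (D1 d) H).filter (fun f => ε1 * (gp Yx ε1 i.1 * (L ^ i.2.2 * L ^ (-e'))) <
        |S i.2.2 (gp Yw ε1 i.2.1) (gp Yx ε1 i.1) f|)) := by
    intro f hf
    rw [mem_filter] at hf
    by_contra hcon
    rw [mem_union, mem_union, not_or, not_or, mem_filter, mem_filter, mem_biUnion] at hcon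
    obtain ⟨⟨hc1, hc2⟩, hc3⟩ := hcon
    have htm' : Tame H A' C (fun _ => P) f := by
      by_contra h
      exact hc1 ⟨hf.1, h⟩
    have hcz : ∀ z : ℕ, y ≤ z → (z : ℝ) ≤ Real.log H ^ A →
        |BH.CC (qq GX (fun _ => P) f) (kk GX) z - BH.CC (qq GX (fun _ => P) f) (kk GX) y| ≤
          η / 2 * BH.CC (qq GX (fun _ => P) f) (kk GX) y := by
      by_contra h
      exact hc2 ⟨hf.1, h⟩
    have hgood : ∀ i ∈ I, |S i.2.2 (gp Yw ε1 i.2.1) (gp Yx ε1 i.1) f| ≤ ε1 * (gp Yx ε1 i.1 * (L ^ i.2.2 * L ^ (-e'))) := by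
      intro i hi
      by_contra h8
      push Not at h8
      exact hc3 ⟨i, hi, by rw [mem_filter]; exact ⟨hf.1, h8⟩⟩
    rw [qq_GX, kk_GX] at hcz
    apply hf.2
    have hpt' : ∀ t : ℕ, (t : ℝ) ≤ L ^ (A + 3) → |(t : ℤ)| ≤ (T0 : ℤ) := by
      intro t ht
      exact hpt t ht 0 (t : ℤ) (by rw [TT_GX, mem_singleton])
    have hrz' := hrz H hn2 T0 (fun _ => P) (by rw [← hLd]; exact hT0) (by rw [← hLd]; exact hPv) f hf.1 htm' 0
    apply goodf d H A T0 y M K cd Λ P (hpol P (f 0)) L ε lam1 lam2 εm η ε1 η' e' e3 κ2 Yx Yw hLd hL3 hA hlam1 hε hεm0 hεm1 hεmε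
      hη0 hηε hη6 hε10 hε1η hη'0 hη'ε hη'1 he30 (by linarith) (by linarith) he3e2 hκ2d hκ20 h7d h9b h9c h9d hΛl hLΛ hYx hYw
      hYwl hYxl hM2 (hya.trans (hmon _ _ (hδε.trans hεmε))) hyK (fun x hx => hsv x y hyy0 hx)
      (by rw [hcd]; exact hpol_deg P hP1 (f 0)) hVy
    · intro hDn
      have h8 := hDl (hpol P (f 0)) (by rw [hcd]; exact hpol_deg P hP1 (f 0)) y hDn
      have h9 : Dn (hpol P (f 0)) y ≤ BH.CC (hpol P (f 0)) 1 y := by
        unfold BH.CC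
        exact le_mul_of_one_le_right (Dn_nonneg _ y) (one_le_pow₀ hVy1)
      have h12 : L ^ (-(e3 / 2)) ≤ Vz y ^ (2 * cd) := by
        rw [Real.rpow_neg hL0.le, inv_le_comm₀ (by positivity) (pow_pos (Vz_pos y) _), ← inv_pow]
        exact hVpow
      have h13 : L ^ (-(e3 / 2)) ≤ κ := by
        rw [Real.rpow_neg hL0.le, inv_le_comm₀ (by positivity) hκ0, ← one_div]
        exact h7c
      calc L ^ (-e3) = L ^ (-(e3 / 2)) * L ^ (-(e3 / 2)) := by rw [← Real.rpow_add hL0]; congr 1; ring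
        _ ≤ κ * Vz y ^ (2 * cd) := mul_le_mul h13 h12 (by positivity) hκ0.le
        _ ≤ Dn (hpol P (f 0)) y := h8
        _ ≤ _ := h9
    · intro hDn W n hnW
      apply NW_zero hd hD P f htm' T0 (n + W) y (by rw [← hLd]; exact hT0) _ _ hDn W n le_rfl
      · have h5 := hpt' (n + W) hnW
        rw [Int.abs_eq_natAbs, Int.natAbs_natCast] at h5
        exact_mod_cast h5
      · rw [← hLd]
        have h1 : L ^ A * L ^ C < H := by
          rw [← pow_add]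
          have h2 : √(H : ℝ) < H := aux6 hHr
          have h3 : L ^ (A + C) ≤ L ^ (A + C + 3) := pow_le_pow_right₀ hL1 (by omega)
          linarith
        have h2 : 0 < L ^ C := by positivity
        rw [lt_div_iff₀ h2]
        calc (y : ℝ) * L ^ C ≤ L ^ A * L ^ C := by gcongr
          _ < H := h1
    · intro t ht
      have h5 := hrz' (t : ℤ) (hpt' t ht)
      rw [← hpol_eval, ← hLd] at h5
      exact h5
    · intro z hz1 hz2
      exact hcz z hz1 (by rw [← hLd]; exact hz2)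
    · intro i1 i2 j hi1 hi2 hj hX hW
      have h5 := hgood (i1, i2, j) (by
        rw [hI, mem_filter, mem_product, mem_product, mem_range, mem_range, mem_range]
        exact ⟨⟨hi1, hi2, Nat.lt_succ_of_le hj⟩, hX, hW⟩)
      rw [hSd] at h5
      simp only [sum_sub_distrib, sum_WI] at h5
      exact h5
  -- the count
  have hcz' := hCZ H hn3 y (by rw [← hLd]; exact hyL) (by rw [← hLd]; exact hyA) (fun _ => P) GX (GX_ok hd hD) hSmall
  rw [← hLd] at hcz' hsub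
  have hc1 := (card_le_card hsub).trans ((card_union_le _ _).trans (add_le_add (card_union_le _ _) card_biUnion_le))
  have hc2 : (((Om (D1 d) H).filter (fun f => ¬ PMom H A d ε lam1 lam2 (hpol P (f 0)))).card : ℝ) ≤
      (NN (D1 d) H / L ^ (A + 3) + NN (D1 d) H * (L ^ e' / y)) + ∑ i ∈ I, NN (D1 d) H * ((3 / ε1 ^ 2) * L ^ (3 * e') * L ^ (-δ)) := by
    refine le_trans (Nat.cast_le.2 hc1) ?_
    push_cast
    apply add_le_add (add_le_add htm hcz')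
    apply sum_le_sum
    intro i hi
    rw [hI, mem_filter, mem_product, mem_product, mem_range, mem_range, mem_range] at hi
    exact hbadX i.2.2 (by omega) _ _ hi.2.2 (by rw [← hYx]; exact hgpx i.1) hi.2.1
  refine hc2.trans ?_
  rw [sum_const, nsmul_eq_mul]
  have hIc : (I.card : ℝ) ≤ ((M : ℝ) + 2) * (((M : ℝ) + 2) * ((d : ℝ) + 1)) := by
    have h8 : I.card ≤ (M + 2) * ((M + 2) * (d + 1)) := by
      rw [hI]
      refine (card_filter_le _ _).trans (le_of_eq ?_)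
      rw [card_product, card_product, card_range, card_range]
    exact_mod_cast h8
  have hy00 : (0 : ℝ) ≤ y0 := Nat.cast_nonneg _
  exact cnt (NN (D1 d) H) L e' e3 δ y I.card d ε1 M A hNN hL3 hd0 hε10 hδ0 hδ1 he'd he30 he3e hyb (by linarith) (Nat.cast_nonneg _)
    hM1 hIc h7b (by linarith)

end Pool.Agent.T9h23.PS
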