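import Mathlib
import Pool.Agent.T9h23.PS.P3

/-! From the moments to the distribution. -/

set_option autoImplicit false

namespace Pool.Agent.T9h23.PS
open Finset Polynomial
open Pool.Agent.H373R2.T7
open Pool.Agent.T9h23.Cor
open Pool.Agent.T9h23.BH

lemma choose_pow (m i : ℕ) (μ : ℝ) : (((m + i).choose m : ℕ) : ℝ) * (μ ^ (m + i) / ((m + i).factorial : ℝ)) =
    (μ ^ m / (m.factorial : ℝ)) * (μ ^ i / (i.factorial : ℝ)) := by
  have h1 : ((m + i).choose m : ℝ) * (m.factorial : ℝ) * (i.factorial : ℝ) = ((m + i).factorial : ℝ) := by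
    have h0 := Nat.add_choose_mul_factorial_mul_factorial i m
    rw [add_comm i m] at h0
    have h0' : ((m + i).choose m : ℝ) * (i.factorial : ℝ) * (m.factorial : ℝ) = ((m + i).factorial : ℝ) := by exact_mod_cast h0
    rw [← h0']
    ring
  have h2 : (m.factorial : ℝ) ≠ 0 := by positivity
  have h3 : (i.factorial : ℝ) ≠ 0 := by positivity
  have h4 : ((m + i).factorial : ℝ) ≠ 0 := by positivity
  rw [mul_div_assoc', div_mul_div_comm, div_eq_div_iff h4 (mul_ne_zero h2 h3), ← h1, pow_add]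
  ring

/-- from the moments to the distribution -/
theorem pdist (x d m : ℕ) (N : ℕ → ℕ) (hm : m ≤ d) (μ ε : ℝ) (hμ : 0 ≤ μ) (hε : 0 ≤ ε)
    (h : ∀ j ≤ d, |((∑ n ∈ Icc 1 x, (N n).choose j : ℕ) : ℝ) - x * (μ ^ j / (j.factorial : ℝ))| ≤ ε * (x * (μ ^ j / (j.factorial : ℝ)))) :
    |(((Icc 1 x).filter (fun n => N n = m)).card : ℝ) - x * (Real.exp (-μ) * μ ^ m / (m.factorial : ℝ))| ≤
      x * ((μ ^ m / (m.factorial : ℝ)) * ((2 + ε) * (μ ^ (d - m) / ((d - m).factorial : ℝ)) + ε * Real.exp μ)) := by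
  have hx : (0 : ℝ) ≤ x := Nat.cast_nonneg x
  obtain ⟨s, hs⟩ : ∃ s : ℕ → ℝ, s = fun j => (-1 : ℝ) ^ (j - m) * (j.choose m : ℝ) := ⟨_, rfl⟩
  obtain ⟨M, hM⟩ : ∃ M : ℕ → ℝ, M = fun j => ((∑ n ∈ Icc 1 x, (N n).choose j : ℕ) : ℝ) := ⟨_, rfl⟩
  have hMj : ∀ j, M j = ∑ n ∈ Icc 1 x, ((N n).choose j : ℝ) := by
    intro j
    rw [hM]
    push_cast
    rfl
  have hd := h d le_rfl
  have hcd := choose_pow m (d - m) μ
  rw [Nat.add_sub_cancel' hm] at hcd
  have hh : ∀ j ≤ d, |M j - x * (μ ^ j / (j.factorial : ℝ))| ≤ ε * (x * (μ ^ j / (j.factorial : ℝ))) := by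
    intro j hj
    rw [hM]
    exact h j hj
  obtain ⟨B, hB⟩ : ∃ B : ℝ, B = (μ ^ m / (m.factorial : ℝ)) * (μ ^ (d - m) / ((d - m).factorial : ℝ)) := ⟨_, rfl⟩
  rw [← hB] at hcd
  have hB0 : 0 ≤ B := by rw [hB]; positivity
  -- Bonferroni
  have h1 : |(((Icc 1 x).filter (fun n => N n = m)).card : ℝ) - ∑ j ∈ Ico m d, s j * M j| ≤ (1 + ε) * (x * B) := by
    have e1 : (((Icc 1 x).filter (fun n => N n = m)).card : ℝ) = ∑ n ∈ Icc 1 x, ((if N n = m then 1 else 0 : ℤ) : ℝ) := by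
      rw [card_filter]
      push_cast
      rfl
    have e2 : ∑ j ∈ Ico m d, s j * M j = ∑ n ∈ Icc 1 x, ∑ j ∈ Ico m d, (-1 : ℝ) ^ (j - m) * (j.choose m : ℝ) * ((N n).choose j : ℝ) := by
      rw [sum_comm]
      refine sum_congr rfl fun j _ => ?_
      rw [hMj, mul_sum, hs]
    rw [e1, e2, ← sum_sub_distrib]
    refine (abs_sum_le_sum_abs _ _).trans ((sum_le_sum fun n _ => bonf (N n) m d hm).trans ?_)
    rw [← mul_sum, ← hMj]
    have h2 : M d ≤ (1 + ε) * (x * (μ ^ d / (d.factorial : ℝ))) := by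
      have := hh d le_rfl
      rw [abs_le] at this
      linarith [this.2]
    calc (d.choose m : ℝ) * M d ≤ (d.choose m : ℝ) * ((1 + ε) * (x * (μ ^ d / (d.factorial : ℝ)))) := by gcongr
      _ = (1 + ε) * (x * ((d.choose m : ℝ) * (μ ^ d / (d.factorial : ℝ)))) := by ring
      _ = _ := by rw [hcd]
  -- the moments
  have h2 : |∑ j ∈ Ico m d, s j * M j - x * ∑ j ∈ Ico m d, (-1 : ℝ) ^ (j - m) * (j.choose m : ℝ) * (μ ^ j / (j.factorial : ℝ))| ≤
      x * ((μ ^ m / (m.factorial : ℝ)) * (ε * Real.exp μ)) := by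
    rw [mul_sum, ← sum_sub_distrib]
    have h3 : ∀ j ∈ Ico m d, |s j * M j - x * ((-1 : ℝ) ^ (j - m) * (j.choose m : ℝ) * (μ ^ j / (j.factorial : ℝ)))| ≤
        ε * x * ((j.choose m : ℝ) * (μ ^ j / (j.factorial : ℝ))) := by
      intro j hj
      rw [mem_Ico] at hj
      have e1 : s j * M j - x * ((-1 : ℝ) ^ (j - m) * (j.choose m : ℝ) * (μ ^ j / (j.factorial : ℝ))) =
          s j * (M j - x * (μ ^ j / (j.factorial : ℝ))) := by rw [hs]; ring
      have e2 : |s j| = (j.choose m : ℝ) := by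
        rw [hs]
        simp only [abs_mul, abs_pow, abs_neg, abs_one, one_pow, one_mul]
        exact abs_of_nonneg (Nat.cast_nonneg _)
      rw [e1, abs_mul, e2]
      calc (j.choose m : ℝ) * |M j - x * (μ ^ j / (j.factorial : ℝ))| ≤ (j.choose m : ℝ) * (ε * (x * (μ ^ j / (j.factorial : ℝ)))) := by
            have := hh j (by omega)
            gcongr
        _ = _ := by ring
    refine (abs_sum_le_sum_abs _ _).trans ((sum_le_sum h3).trans ?_)
    rw [← mul_sum, sum_Ico_eq_sum_range]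
    have e3 : ∑ i ∈ range (d - m), (((m + i).choose m : ℕ) : ℝ) * (μ ^ (m + i) / ((m + i).factorial : ℝ)) =
        (μ ^ m / (m.factorial : ℝ)) * ∑ i ∈ range (d - m), μ ^ i / (i.factorial : ℝ) := by
      rw [mul_sum]
      exact sum_congr rfl fun i _ => choose_pow m i μ
    rw [e3]
    have h4 := Real.sum_le_exp_of_nonneg hμ (d - m)
    calc ε * x * ((μ ^ m / (m.factorial : ℝ)) * ∑ i ∈ range (d - m), μ ^ i / (i.factorial : ℝ)) ≤
        ε * x * ((μ ^ m / (m.factorial : ℝ)) * Real.exp μ) := by gcongr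
      _ = _ := by ring
  have h3 := poisson_bonf m d hm μ hμ
  rw [hcd] at h3
  have h4 : |x * ∑ j ∈ Ico m d, (-1 : ℝ) ^ (j - m) * (j.choose m : ℝ) * (μ ^ j / (j.factorial : ℝ)) -
      x * (Real.exp (-μ) * μ ^ m / (m.factorial : ℝ))| ≤ x * B := by
    rw [← mul_sub, abs_mul, abs_of_nonneg hx, abs_sub_comm]
    exact mul_le_mul_of_nonneg_left h3 hx
  have e4 : x * ((μ ^ m / (m.factorial : ℝ)) * ((2 + ε) * (μ ^ (d - m) / ((d - m).factorial : ℝ)) + ε * Real.exp μ)) =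
      (1 + ε) * (x * B) + x * ((μ ^ m / (m.factorial : ℝ)) * (ε * Real.exp μ)) + x * B := by rw [hB]; ring
  rw [e4]
  refine (abs_sub_le _ _ _).trans (add_le_add ((abs_sub_le _ _ _).trans (add_le_add h1 h2)) h4)

end Pool.Agent.T9h23.PS
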